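import Mathlib

/-!
Project VG2, module Cid: the ideals of good denominators of a resolution.

`CI r δ p` is the set of all `y` such that some matrix `s` satisfies `δ p * s * δ p = y • δ p`.

Ideal: sums, zero, multiples of `s`.  `cid_next`: `δ p * (y • 1 - s * δ p) = 0`, so every column
of `y • 1 - s * δ p` lies in the kernel of `δ p`, by exactness `y • 1 - s * δ p = δ (p+1) * s'`.
Then `δ (p+1) * s' * δ (p+1) = y • δ (p+1) - s * (δ p * δ (p+1)) = y • δ (p+1)`.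
`cid_mono`: from `cid_next`.  `cid_three`: apply `cid_next` at `p` and at `p + 1`.
-/

open Matrix

namespace VG

universe u

variable {R : Type u} [CommRing R] (r : ℕ → ℕ) (δ : ∀ p, Matrix (Fin (r p)) (Fin (r (p + 1))) R)

/-- the ideal of all `y` such that `y` times the identity of `P_m`, `m > p`, is null homotopic -/
def CI (p : ℕ) : Ideal R where
  carrier := {y | ∃ s : Matrix (Fin (r (p + 1))) (Fin (r p)) R, δ p * s * δ p = y • δ p}
  add_mem' := by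
    rintro a b ⟨s, hs⟩ ⟨t, ht⟩
    exact ⟨s + t, by rw [Matrix.mul_add, Matrix.add_mul, hs, ht, add_smul]⟩
  zero_mem' := ⟨0, by rw [Matrix.mul_zero, Matrix.zero_mul, zero_smul]⟩
  smul_mem' := by
    rintro c a ⟨s, hs⟩
    exact ⟨c • s, by rw [Matrix.mul_smul, Matrix.smul_mul, hs, smul_smul, smul_eq_mul]⟩

theorem mem_CI (p : ℕ) (y : R) : y ∈ CI r δ p ↔
    ∃ s : Matrix (Fin (r (p + 1))) (Fin (r p)) R, δ p * s * δ p = y • δ p := Iff.rfl

private theorem cid_lift {a b c d : ℕ} (A : Matrix (Fin a) (Fin b) R)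
    (B : Matrix (Fin b) (Fin c) R) (h : ∀ u, A *ᵥ u = 0 → ∃ w, u = B *ᵥ w)
    (X : Matrix (Fin b) (Fin d) R) (hX : A * X = 0) : ∃ Y : Matrix (Fin c) (Fin d) R, B * Y = X := by
  have h1 : ∀ j, ∃ w, (fun i => X i j) = B *ᵥ w := by
    intro j
    apply h
    funext i
    exact congrFun (congrFun hX i) j
  choose w hw using h1
  refine ⟨fun i j => w j i, ?_⟩
  ext i j
  exact (congrFun (hw j) i).symm

theorem cid_next (cxδ : ∀ p, δ p * δ (p + 1) = 0)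
    (exδ : ∀ p u, δ p *ᵥ u = 0 → ∃ w, u = δ (p + 1) *ᵥ w) (p : ℕ) (y : R)
    (s : Matrix (Fin (r (p + 1))) (Fin (r p)) R) (hs : δ p * s * δ p = y • δ p) :
    ∃ s' : Matrix (Fin (r (p + 2))) (Fin (r (p + 1))) R,
      δ (p + 1) * s' + s * δ p = y • (1 : Matrix (Fin (r (p + 1))) (Fin (r (p + 1))) R) ∧
      δ (p + 1) * s' * δ (p + 1) = y • δ (p + 1) := by
  obtain ⟨s', hs'⟩ := cid_lift (δ p) (δ (p + 1)) (exδ p)
    (y • (1 : Matrix (Fin (r (p + 1))) (Fin (r (p + 1))) R) - s * δ p) (by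
      rw [Matrix.mul_sub, ← Matrix.mul_assoc, hs, Matrix.mul_smul, Matrix.mul_one, sub_self])
  refine ⟨s', by rw [hs', sub_add_cancel], ?_⟩
  rw [hs', Matrix.sub_mul, Matrix.smul_mul, Matrix.one_mul, Matrix.mul_assoc, cxδ, Matrix.mul_zero,
    sub_zero]

theorem cid_mono (cxδ : ∀ p, δ p * δ (p + 1) = 0)
    (exδ : ∀ p u, δ p *ᵥ u = 0 → ∃ w, u = δ (p + 1) *ᵥ w) (p : ℕ) : CI r δ p ≤ CI r δ (p + 1) := by
  rintro y ⟨s, hs⟩
  obtain ⟨s', -, hs'⟩ := cid_next r δ cxδ exδ p y s hs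
  exact ⟨s', hs'⟩

theorem cid_three (cxδ : ∀ p, δ p * δ (p + 1) = 0)
    (exδ : ∀ p u, δ p *ᵥ u = 0 → ∃ w, u = δ (p + 1) *ᵥ w) (p : ℕ) (y : R) (hy : y ∈ CI r δ p) :
    ∃ (S0 : Matrix (Fin (r (p + 1))) (Fin (r p)) R)
      (S1 : Matrix (Fin (r (p + 2))) (Fin (r (p + 1))) R)
      (S2 : Matrix (Fin (r (p + 3))) (Fin (r (p + 2))) R),
      δ (p + 1) * S1 + S0 * δ p = y • (1 : Matrix (Fin (r (p + 1))) (Fin (r (p + 1))) R) ∧
      δ (p + 2) * S2 + S1 * δ (p + 1) =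
        y • (1 : Matrix (Fin (r (p + 2))) (Fin (r (p + 2))) R) := by
  obtain ⟨S0, hS0⟩ := hy
  obtain ⟨S1, h1, hS1⟩ := cid_next r δ cxδ exδ p y S0 hS0
  obtain ⟨S2, h2, -⟩ := cid_next r δ cxδ exδ (p + 1) y S1 hS1
  exact ⟨S0, S1, S2, h1, h2⟩

end VG
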