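import Pool.Agent.VG.GDef
import Pool.Agent.VG.GBas
import Pool.Agent.VG2.Cid

/-!
Project VG2, module CidH: the ideals of good denominators are homogeneous.

`hom_iff`: it is enough that
`gc e y ∈ CI p` for `y ∈ CI p`.  If `δ p * s * δ p = y • δ p`, put
`s' j i = gc (e + a p i - a (p + 1) j) (s j i)`.  Entry `(i, j')` of `δ p * s' * δ p` is
`∑ j i', δ p i j * s' j i' * δ p i' j'`, and by `gc_mul` each summand is
`gc (e + a (p + 1) j' - a p i) (δ p i j * s j i' * δ p i' j')`, so the sum is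
`gc (e + a (p+1) j' - a p i) (y * δ p i j') = gc e y * δ p i j'`.
-/

open Matrix

namespace VG

universe u

variable {k R : Type u} [Field k] [CommRing R] [Algebra k R] (𝒜 : ℤ → Submodule k R)
  [GradedAlgebra 𝒜]

theorem cid_hom (r : ℕ → ℕ) (a : ∀ p, Fin (r p) → ℤ)
    (δ : ∀ p, Matrix (Fin (r p)) (Fin (r (p + 1))) R)
    (homδ : ∀ p i j, δ p i j ∈ 𝒜 (a (p + 1) j - a p i)) (p : ℕ) :
    (CI r δ p).IsHomogeneous 𝒜 := by
  rw [hom_iff]
  rintro y ⟨s, hs⟩ e
  set s' : Matrix (Fin (r (p + 1))) (Fin (r p)) R :=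
    Matrix.of fun j i => gc 𝒜 (e + a p i - a (p + 1) j) (s j i) with hs'
  refine ⟨s', ?_⟩
  ext i j'
  have h1 := congrFun (congrFun hs i) j'
  rw [Matrix.smul_apply, smul_eq_mul] at h1 ⊢
  have h2 : gc 𝒜 (e + a (p + 1) j' - a p i) (δ p i j' * y) = δ p i j' * gc 𝒜 e y := by
    rw [gc_mul 𝒜 (homδ p i j')]
    congr 2
    ring
  rw [mul_comm (gc 𝒜 e y), ← h2, mul_comm, ← h1, Matrix.mul_apply, Matrix.mul_apply, map_sum]
  refine Finset.sum_congr rfl fun i' _ => ?_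
  rw [Matrix.mul_apply, Matrix.mul_apply, Finset.sum_mul, Finset.sum_mul, map_sum]
  refine Finset.sum_congr rfl fun j _ => ?_
  rw [hs', Matrix.of_apply]
  have h3 : gc 𝒜 (e + a (p + 1) j' - a p i) (δ p i' j' * (δ p i j * s j i')) =
      δ p i' j' * (δ p i j * gc 𝒜 (e + a p i' - a (p + 1) j) (s j i')) := by
    rw [gc_mul 𝒜 (homδ p i' j'), gc_mul 𝒜 (homδ p i j)]
    congr 3
    ring
  rw [mul_comm (δ p i j * s j i'), h3]
  ring

end VG
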