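import Pool.Agent.VG2.Cid

/-!
Project VG2, module LocC: clearing denominators.

`B` is the localization of `R` at the prime `Q`.  Write the finitely many entries of `s` with a
common denominator `u ∉ Q`: `algebraMap (s' j i) = algebraMap u * s j i`.
Then `algebraMap` of `δ p * s' * δ p - u • δ p` is zero, so for every entry there is
`v ∉ Q` with `v * entry = 0` (`IsLocalization.eq_iff_exists`); take the product of the `v`s.
-/

open Matrix

namespace VG

universe u

theorem exists_denom {R B : Type u} [CommRing R] [CommRing B] [Algebra R B] (Q : Ideal R)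
    [Q.IsPrime] [IsLocalization.AtPrime B Q] {a b : ℕ} (D : Matrix (Fin a) (Fin b) R)
    (s : Matrix (Fin b) (Fin a) B)
    (hs : D.map (algebraMap R B) * s * D.map (algebraMap R B) = D.map (algebraMap R B)) :
    ∃ (y : R) (s' : Matrix (Fin b) (Fin a) R), y ∉ Q ∧ D * s' * D = y • D := by
  classical
  obtain ⟨u, hu⟩ := IsLocalization.exist_integer_multiples_of_finite Q.primeCompl
    (fun x : Fin b × Fin a => s x.1 x.2)
  choose t ht using hu
  -- `ht : algebraMap R B (t x) = u • s x.1 x.2`
  have ht' : ∀ j i, algebraMap R B (t (j, i)) = algebraMap R B (u : R) * s j i := by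
    intro j i
    rw [ht (j, i)]
    show (u : R) • s j i = _
    rw [Algebra.smul_def]
  set T : Matrix (Fin b) (Fin a) R := fun j i => t (j, i) with hT
  have hTs : T.map (algebraMap R B) = algebraMap R B (u : R) • s := by
    ext j i
    simp only [Matrix.map_apply, Matrix.smul_apply, smul_eq_mul]
    exact ht' j i
  have key : (D * T * D).map (algebraMap R B) = ((u : R) • D).map (algebraMap R B) := by
    rw [Matrix.map_mul, Matrix.map_mul, hTs, Matrix.mul_smul, Matrix.smul_mul, hs]
    ext i j
    simp [Matrix.map_apply, Matrix.smul_apply]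
  have key2 : ∀ x : Fin a × Fin b, ∃ v : Q.primeCompl, (v : R) * (D * T * D) x.1 x.2 =
      (v : R) * ((u : R) • D) x.1 x.2 := by
    rintro ⟨i, j⟩
    have := congrFun (congrFun key i) j
    simp only [Matrix.map_apply] at this
    exact (IsLocalization.eq_iff_exists Q.primeCompl B).mp this
  choose v hv using key2
  set w : Q.primeCompl := ∏ x : Fin a × Fin b, v x with hw
  refine ⟨(w : R) * (u : R), (w : R) • T, ?_, ?_⟩
  · exact (w * u).2
  · ext i j
    have hd : ∃ z : R, (w : R) = z * (v (i, j) : R) := by
      refine ⟨((∏ x ∈ Finset.univ.erase (i, j), v x : Q.primeCompl) : R), ?_⟩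
      rw [hw, ← Finset.prod_erase_mul Finset.univ v (Finset.mem_univ (i, j))]
      rfl
    obtain ⟨z, hz⟩ := hd
    rw [Matrix.mul_smul, Matrix.smul_mul, Matrix.smul_apply, Matrix.smul_apply, smul_eq_mul,
      smul_eq_mul, hz, mul_assoc, hv (i, j), Matrix.smul_apply, smul_eq_mul]
    ring

end VG
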