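import Pool.Agent.VG2.SplB
import Pool.Agent.VG2.LocC
import Pool.Agent.VG.DepB
import Pool.Agent.VG.LciL
import Pool.Agent.VG.LocEx

/-!
Project VG2, module CidHt: primes containing `CI p` have height at least `p + 3`.

PLAN.  `A` is a polynomial ring (or any Noetherian ring with regular localizations), `R = A/I`,
`p`-th ideal `CI r δ p` of the resolution of `K0 I f`.  Let `Q` be a prime of `R` with
`Q.height ≤ p + 2`, `P` its preimage in `A`, `T = Localization.AtPrime P` (regular: `hreg`),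
`IT = I.map (algebraMap A T)`, `B = T ⧸ IT`, a localization of `R` at `Q` (copy the private lemmas `qsub`,
`qloc` and the beginning of `core` from `Pool/Agent/VG/ClsM.lean`), `ringKrullDim B = Q.height ≤ p + 2`
(`IsLocalization.AtPrime.ringKrullDim_eq_height`).  Every `B`-regular sequence has length
`≤ p + 2` (as in the private lemma `len_le` of `Pool/Agent/VG/LciL.lean`).  `pd_normal` (LciL; needs
`hr`) gives finite projective dimension of `Hom(IT.Cotangent, B)`; with `cotangentHomEquiv` and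
`pd_dual_of_depth_le` (module `Pool/Agent/VG/DepB`) `PD B _ (p + 1)`; see the use in
`Pool/Agent/VG/AsmM.lean` (`hPD0`, `hPD`).  `hom_loc` transports it to
`PD B (range (σ.map _).mulVecLin) (p + 1)`; the localized matrices form an exact complex
(`exact_loc`, as in `pd_normal`); `exists_split` (SplB), `exists_denom` (LocC): there is `y ∉ Q` in
`CI r δ p`.
-/

open Matrix CategoryTheory RingTheory.Sequence

namespace VG

universe u

open Pool.Agent.Helper19

private theorem qsub {A : Type u} [CommRing A] (I : Ideal A) (p : Ideal (A ⧸ I)) [p.IsPrime]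
    (P : Ideal A) [P.IsPrime] (hP : P = p.comap (Ideal.Quotient.mk I)) :
    Algebra.algebraMapSubmonoid (A ⧸ I) P.primeCompl = p.primeCompl := by
  ext x
  obtain ⟨a, rfl⟩ := Ideal.Quotient.mk_surjective x
  constructor
  · rintro ⟨b, hb, hba⟩ hx
    apply hb
    rw [hP, SetLike.mem_coe, Ideal.mem_comap]
    have : Ideal.Quotient.mk I b = Ideal.Quotient.mk I a := hba
    rw [this]
    exact hx
  · intro h
    refine ⟨a, fun ha => h ?_, rfl⟩
    rw [hP, SetLike.mem_coe, Ideal.mem_comap] at ha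
    exact ha

private theorem qloc {A T : Type u} [CommRing A] [CommRing T] [Algebra A T] (I : Ideal A)
    (p : Ideal (A ⧸ I)) [p.IsPrime] (P : Ideal A) [P.IsPrime]
    (hP : P = p.comap (Ideal.Quotient.mk I)) [IsLocalization.AtPrime T P] :
    IsLocalization.AtPrime (T ⧸ I.map (algebraMap A T)) p := by
  have h1 : IsLocalization (Algebra.algebraMapSubmonoid (A ⧸ I) P.primeCompl)
      (T ⧸ I.map (algebraMap A T)) := inferInstance
  rw [qsub I p P hP] at h1
  exact h1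

private theorem len_le {B : Type u} [CommRing B] [IsLocalRing B] [IsNoetherianRing B] {d : ℕ}
    (hdim : ringKrullDim B ≤ d) (rs : List B) (hrs : IsRegular B rs) : rs.length ≤ d := by
  have h1 := ringKrullDim_add_length_eq_ringKrullDim_of_isRegular rs hrs
  have h2 : Nontrivial (B ⧸ Ideal.ofList rs) := by
    refine Ideal.Quotient.nontrivial_iff.2 fun h3 => hrs.2 ?_
    rw [h3]
    simp
  have h3 : (0 : WithBot ℕ∞) ≤ ringKrullDim (B ⧸ Ideal.ofList rs) := ringKrullDim_nonneg_of_nontrivial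
  have h4 : (rs.length : WithBot ℕ∞) ≤ d := by
    calc (rs.length : WithBot ℕ∞) = 0 + rs.length := (zero_add _).symm
      _ ≤ ringKrullDim (B ⧸ Ideal.ofList rs) + rs.length := by gcongr
      _ = ringKrullDim B := h1
      _ ≤ d := hdim
  exact_mod_cast h4

private theorem core {A T : Type u} [CommRing A] [IsNoetherianRing A] [CommRing T] [Algebra A T]
    (I P : Ideal A) [P.IsPrime] [IsLocalization.AtPrime T P] [IsRegularLocalRing T]
    (Q : Ideal (A ⧸ I)) [Q.IsPrime] (hP : P = Q.comap (Ideal.Quotient.mk I)) {μ : ℕ} (f : Fin μ → I)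
    (hspan : Submodule.span A (Set.range f) = ⊤) (r : ℕ → ℕ)
    (σ : Matrix (Fin μ) (Fin (r 0)) (A ⧸ I))
    (δ : ∀ p, Matrix (Fin (r p)) (Fin (r (p + 1))) (A ⧸ I))
    (cxσ : σ * δ 0 = 0) (cxδ : ∀ p, δ p * δ (p + 1) = 0)
    (exσ : ∀ u, σ *ᵥ u = 0 → ∃ w, u = δ 0 *ᵥ w)
    (exδ : ∀ p u, δ p *ᵥ u = 0 → ∃ w, u = δ (p + 1) *ᵥ w)
    (hK : ∀ u, u ∈ K0 I f ↔ ∃ v, u = σ *ᵥ v) (h : ℕ) (hr : r (h + 1) = 0)
    (p : ℕ) (hph : Q.height ≤ (p + 2 : ℕ)) :
    ∃ y : A ⧸ I, y ∉ Q ∧ y ∈ CI r δ p := by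
  have hIP : I ≤ P := by
    intro x hx
    rw [hP, Ideal.mem_comap, Ideal.Quotient.eq_zero_iff_mem.mpr hx]
    exact zero_mem _
  have hne : I.map (algebraMap A T) ≠ ⊤ := by
    intro h'
    have h1 : I.map (algebraMap A T) ≤ P.map (algebraMap A T) := Ideal.map_mono hIP
    rw [h', top_le_iff, IsLocalization.AtPrime.map_eq_maximalIdeal P] at h1
    exact Ideal.IsPrime.ne_top (IsLocalRing.maximalIdeal.isMaximal _).isPrime h1
  have hnt : Nontrivial (T ⧸ I.map (algebraMap A T)) := Ideal.Quotient.nontrivial_iff.2 hne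
  have hloc : IsLocalRing (T ⧸ I.map (algebraMap A T)) :=
    IsLocalRing.of_surjective' (Ideal.Quotient.mk _) Ideal.Quotient.mk_surjective
  have hqloc : IsLocalization.AtPrime (T ⧸ I.map (algebraMap A T)) Q := qloc I Q P hP
  have hdim : ringKrullDim (T ⧸ I.map (algebraMap A T)) = Q.height :=
    IsLocalization.AtPrime.ringKrullDim_eq_height Q _
  have hdim' : ringKrullDim (T ⧸ I.map (algebraMap A T)) ≤ (p + 2 : ℕ) := by
    rw [hdim]
    exact WithBot.coe_le_coe.mpr hph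
  have hfin := pd_normal (T := T) P.primeCompl I f hspan r σ δ cxσ cxδ exσ exδ hK h hr
  obtain ⟨l, hl⟩ := (projectiveDimension_ne_top_iff _).mp hfin.ne
  have hPD0 : PD (T ⧸ I.map (algebraMap A T)) ((I.map (algebraMap A T)).Cotangent →ₗ[T ⧸ I.map (algebraMap A T)]
      (T ⧸ I.map (algebraMap A T))) (p + 1) :=
    PD.congr (cotangentHomEquiv _ _).symm (pd_dual_of_depth_le p
      (fun rs hrs => len_le (by exact_mod_cast hdim') rs hrs)
      ⟨l + 1, PD.congr (cotangentHomEquiv _ _) hl⟩)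
  obtain ⟨e⟩ := hom_loc (T := T) P.primeCompl I f hspan (r 0) σ hK
  have hPD := PD.congr e hPD0
  have hmul : ∀ {a b c : ℕ} (P : Matrix (Fin a) (Fin b) (A ⧸ I)) (Q : Matrix (Fin b) (Fin c) (A ⧸ I)),
      P * Q = 0 → P.map (algebraMap (A ⧸ I) (T ⧸ I.map (algebraMap A T))) *
        Q.map (algebraMap (A ⧸ I) (T ⧸ I.map (algebraMap A T))) = 0 := by
    intro a b c P Q h1
    rw [← Matrix.map_mul, h1]
    exact Matrix.map_zero _ (map_zero _)
  obtain ⟨s, hs⟩ := exists_split r (σ.map (algebraMap (A ⧸ I) (T ⧸ I.map (algebraMap A T))))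
    (fun p => (δ p).map (algebraMap (A ⧸ I) (T ⧸ I.map (algebraMap A T))))
    (hmul _ _ cxσ) (fun p => hmul _ _ (cxδ p))
    (fun u hu => exact_loc (Algebra.algebraMapSubmonoid (A ⧸ I) P.primeCompl) σ (δ 0) exσ u hu)
    (fun p u hu => exact_loc (Algebra.algebraMapSubmonoid (A ⧸ I) P.primeCompl) (δ p) (δ (p + 1))
      (exδ p) u hu) p hPD
  obtain ⟨y, s', hy, hs'⟩ := exists_denom Q (δ p) s hs
  exact ⟨y, hy, s', hs'⟩

theorem cid_height {A : Type u} [CommRing A] [IsNoetherianRing A] [IsRegularRing A] (I : Ideal A)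
    {μ : ℕ} (f : Fin μ → I) (hspan : Submodule.span A (Set.range f) = ⊤) (r : ℕ → ℕ)
    (σ : Matrix (Fin μ) (Fin (r 0)) (A ⧸ I))
    (δ : ∀ p, Matrix (Fin (r p)) (Fin (r (p + 1))) (A ⧸ I))
    (cxσ : σ * δ 0 = 0) (cxδ : ∀ p, δ p * δ (p + 1) = 0)
    (exσ : ∀ u, σ *ᵥ u = 0 → ∃ w, u = δ 0 *ᵥ w)
    (exδ : ∀ p u, δ p *ᵥ u = 0 → ∃ w, u = δ (p + 1) *ᵥ w)
    (hK : ∀ u, u ∈ K0 I f ↔ ∃ v, u = σ *ᵥ v) (h : ℕ) (hr : r (h + 1) = 0)
    (p : ℕ) (Q : Ideal (A ⧸ I)) (hQ : Q.IsPrime) (hle : CI r δ p ≤ Q) :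
    ((p + 3 : ℕ) : ℕ∞) ≤ Q.height := by
  by_contra hlt
  have hph : Q.height ≤ (p + 2 : ℕ) := by
    rw [not_le] at hlt
    have h1 : ((p + 3 : ℕ) : ℕ∞) = ((p + 2 : ℕ) : ℕ∞) + 1 := by push_cast; ring
    rw [h1] at hlt
    exact Order.le_of_lt_add_one hlt
  obtain ⟨P, hP⟩ : ∃ P, P = Q.comap (Ideal.Quotient.mk I) := ⟨_, rfl⟩
  have hPp : P.IsPrime := hP ▸ Ideal.comap_isPrime _ _
  have hreg : IsRegularLocalRing (Localization.AtPrime P) := inferInstance
  obtain ⟨y, hy, hy'⟩ := core (T := Localization.AtPrime P) I P Q hP f hspan r σ δ cxσ cxδ exσ exδ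
    hK h hr p hph
  exact hy (hle hy')

end VG
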