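import Pool.Agent.VG2.Zet

/-!
Project VG2, module LevZ: cocycles of level zero pair to zero with `J` and `τ`.
-/

open Matrix

namespace VG

universe u v w

variable {R K V : Type u} [CommRing R] [Field K] [CharZero K] [AddCommGroup V] [Module K V]
  {ι : Type v} (H : FDat R K V ι)

/-- the pairing with `J + τ` -/
noncomputable def prJ (d : ℕ) (z0 : Fin (H.r 0) → ExteriorAlgebra K V)
    (z1 : Fin (H.r 1) → ExteriorAlgebra K V) : ExteriorAlgebra K V :=
  (∑ i, (∑ j, H.φ (H.J i j) • z0 j) * io (H.D (H.X i))) +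
    ((-1 : K) ^ d) • ∑ l, H.φ (H.τ l) • z1 l

private noncomputable def pf : (Fin (H.r 0) → ExteriorAlgebra K V) →+ ExteriorAlgebra K V :=
  AddMonoidHom.mk' (fun z => ∑ i, (∑ j, H.φ (H.J i j) • z j) * io (H.D (H.X i))) (by
    intro a b
    simp only [Pi.add_apply, smul_add, Finset.sum_add_distrib, add_mul])

private noncomputable def pg (d : ℕ) : (Fin (H.r 1) → ExteriorAlgebra K V) →+ ExteriorAlgebra K V :=
  AddMonoidHom.mk' (fun z => ((-1 : K) ^ d) • ∑ l, H.φ (H.τ l) • z l) (by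
    intro a b
    simp only [Pi.add_apply, smul_add, Finset.sum_add_distrib])

omit [CharZero K] in
private theorem pf_apply (z : Fin (H.r 0) → ExteriorAlgebra K V) :
    pf H z = ∑ i, (∑ j, H.φ (H.J i j) • z j) * io (H.D (H.X i)) := rfl

omit [CharZero K] in
private theorem pg_apply (d : ℕ) (z : Fin (H.r 1) → ExteriorAlgebra K V) :
    pg H d z = ((-1 : K) ^ d) • ∑ l, H.φ (H.τ l) • z l := rfl

omit [CharZero K] in
private theorem prJ_eq (d : ℕ) (z0 : Fin (H.r 0) → ExteriorAlgebra K V)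
    (z1 : Fin (H.r 1) → ExteriorAlgebra K V) : prJ H d z0 z1 = pf H z0 + pg H d z1 := rfl

omit [CharZero K] in
private theorem pf_smul (c : K) (z : Fin (H.r 0) → ExteriorAlgebra K V) :
    pf H (c • z) = c • pf H z := by
  rw [pf_apply, pf_apply, Finset.smul_sum]
  refine Finset.sum_congr rfl fun i _ => ?_
  rw [← smul_mul_assoc, Finset.smul_sum]
  congr 1
  refine Finset.sum_congr rfl fun j _ => ?_
  rw [Pi.smul_apply, smul_comm]

omit [CharZero K] in
private theorem pf_vm (g : Fin (H.r 0) → ExteriorAlgebra K V) (Pi : Matrix (Fin (H.r 0)) (Fin (H.r 0)) R)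
    (hPiJ : ∀ j, ∑ i, H.φ ((Pi *ᵥ H.J i) j) • H.D (H.X i) = 0) :
    pf H (vm g (Pi.map H.φ)) = 0 := by
  have h1 : pf H (vm g (Pi.map H.φ)) =
      ∑ k, g k * io (∑ i, H.φ ((Pi *ᵥ H.J i) k) • H.D (H.X i)) := by
    have h2 : ∀ i, (∑ j, H.φ (H.J i j) • vm g (Pi.map H.φ) j) * io (H.D (H.X i)) =
        ∑ k, g k * io (H.φ ((Pi *ᵥ H.J i) k) • H.D (H.X i)) := by
      intro i
      have h3 : ∑ j, H.φ (H.J i j) • vm g (Pi.map H.φ) j = ∑ k, H.φ ((Pi *ᵥ H.J i) k) • g k := by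
        have h4 : ∀ j, H.φ (H.J i j) • vm g (Pi.map H.φ) j =
            ∑ k, (H.φ (Pi k j) * H.φ (H.J i j)) • g k := by
          intro j
          unfold vm
          rw [Finset.smul_sum]
          refine Finset.sum_congr rfl fun k _ => ?_
          rw [smul_smul, Matrix.map_apply, mul_comm]
        rw [Finset.sum_congr rfl fun j _ => h4 j, Finset.sum_comm]
        refine Finset.sum_congr rfl fun k _ => ?_
        rw [← Finset.sum_smul]
        congr 1
        rw [Matrix.mulVec, dotProduct, map_sum]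
        refine Finset.sum_congr rfl fun j _ => ?_
        rw [map_mul]
      rw [h3, Finset.sum_mul]
      refine Finset.sum_congr rfl fun k _ => ?_
      rw [map_smul, smul_mul_assoc, mul_smul_comm]
    rw [pf_apply, Finset.sum_congr rfl fun i _ => h2 i, Finset.sum_comm]
    refine Finset.sum_congr rfl fun k _ => ?_
    rw [map_sum, Finset.mul_sum]
  rw [h1]
  refine Finset.sum_eq_zero fun k _ => ?_
  rw [hPiJ k, map_zero, mul_zero]

omit [CharZero K] in
private theorem tau_u (u : Fin (H.r 0) → ExteriorAlgebra K V) :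
    ∑ i, (∑ j, H.φ (H.J i j) • u j) * iE H.ε (io (H.D (H.X i))) =
      ∑ l, H.φ (H.τ l) • vm u ((H.δ 0).map H.φ) l := by
  have h1 : ∀ i, (∑ j, H.φ (H.J i j) • u j) * iE H.ε (io (H.D (H.X i))) =
      ∑ j, H.φ (((H.w i : ℤ) : R) * H.X i * H.J i j) • u j := by
    intro i
    rw [iE_io, H.eulX, ← Algebra.commutes, ← Algebra.smul_def, Finset.smul_sum]
    refine Finset.sum_congr rfl fun j _ => ?_
    rw [smul_smul, map_mul, map_mul, map_intCast]
  rw [Finset.sum_congr rfl fun i _ => h1 i, Finset.sum_comm]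
  have h2 : ∀ j, ∑ i, H.φ (((H.w i : ℤ) : R) * H.X i * H.J i j) • u j =
      ∑ l, (H.φ (H.δ 0 j l) * H.φ (H.τ l)) • u j := by
    intro j
    rw [← Finset.sum_smul, ← map_sum, H.hτ j, Matrix.mulVec, dotProduct, map_sum, Finset.sum_smul]
    refine Finset.sum_congr rfl fun l _ => ?_
    rw [map_mul]
  rw [Finset.sum_congr rfl fun j _ => h2 j, Finset.sum_comm]
  refine Finset.sum_congr rfl fun l _ => ?_
  unfold vm
  rw [Finset.smul_sum]
  refine Finset.sum_congr rfl fun j _ => ?_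
  rw [smul_smul, Matrix.map_apply, mul_comm]

private theorem map_mul' {a b c : ℕ} (φ : R →+* K) (M : Matrix (Fin a) (Fin b) R)
    (N : Matrix (Fin b) (Fin c) R) : (M * N).map φ = M.map φ * N.map φ :=
  Matrix.map_mul

private theorem map_vone {a : ℕ} (φ : R →+* K) (v : R) :
    (v • (1 : Matrix (Fin a) (Fin a) R)).map φ = φ v • (1 : Matrix (Fin a) (Fin a) K) := by
  ext i j
  rw [Matrix.map_apply, Matrix.smul_apply, Matrix.smul_apply, smul_eq_mul, smul_eq_mul, map_mul,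
    Matrix.one_apply, Matrix.one_apply]
  by_cases h : i = j
  · rw [if_pos h, if_pos h, map_one]
  · rw [if_neg h, if_neg h, map_zero]

theorem lev_zero (d : ℕ) (hdeg : ∀ z ∈ Dgf K V (d + 1), z = 0)
    (z0 : Fin (H.r 0) → ExteriorAlgebra K V) (z1 : Fin (H.r 1) → ExteriorAlgebra K V)
    (hz1 : ∀ l, z1 l ∈ Dgf K V d)
    (h0 : vm z0 ((H.δ 0).map H.φ) = fun l => iE H.ε (z1 l))
    (h1 : vm z1 ((H.δ 1).map H.φ) = 0)
    (v : R) (hv : H.φ v ≠ 0) (S0 : Matrix (Fin (H.r 1)) (Fin (H.r 0)) R)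
    (S1 : Matrix (Fin (H.r 2)) (Fin (H.r 1)) R)
    (e1 : H.δ 1 * S1 + S0 * H.δ 0 = v • (1 : Matrix (Fin (H.r 1)) (Fin (H.r 1)) R))
    (v' : R) (hv' : H.φ v' ≠ 0) (Q : Matrix (Fin (H.r 1)) (Fin (H.r 0)) R)
    (Pi : Matrix (Fin (H.r 0)) (Fin (H.r 0)) R)
    (e0 : H.δ 0 * Q = v' • (1 : Matrix (Fin (H.r 0)) (Fin (H.r 0)) R) - Pi)
    (hPiJ : ∀ j, ∑ i, H.φ ((Pi *ᵥ H.J i) j) • H.D (H.X i) = 0) :
    prJ H d z0 z1 = 0 := by
  have hA : S0.map H.φ * (H.δ 0).map H.φ =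
      H.φ v • (1 : Matrix (Fin (H.r 1)) (Fin (H.r 1)) K) - (H.δ 1).map H.φ * S1.map H.φ := by
    rw [← map_mul', ← map_mul', ← map_vone, ← e1]
    ext i j
    simp only [Matrix.sub_apply, Matrix.map_apply, Matrix.add_apply, map_add]
    ring
  have hB : (H.δ 0).map H.φ * Q.map H.φ =
      H.φ v' • (1 : Matrix (Fin (H.r 0)) (Fin (H.r 0)) K) - Pi.map H.φ := by
    rw [← map_mul', e0, ← map_vone]
    ext i j
    simp only [Matrix.sub_apply, Matrix.map_apply, map_sub]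
  obtain ⟨u, hu⟩ : ∃ u : Fin (H.r 0) → ExteriorAlgebra K V,
      u = (H.φ v)⁻¹ • vm z1 (S0.map H.φ) := ⟨_, rfl⟩
  have hud : ∀ j, u j ∈ Dgf K V d := by
    intro j
    rw [hu, _root_.Pi.smul_apply]
    exact Submodule.smul_mem _ _ (vm_dgf z1 hz1 _ j)
  have hu1 : vm u ((H.δ 0).map H.φ) = z1 := by
    rw [hu, vm_smul, vm_vm, hA, sub_eq_add_neg, vm_matrix_add, vm_matrix_smul, vm_one]
    have h2 : vm z1 (-((H.δ 1).map H.φ * S1.map H.φ)) = 0 := by
      have h3 : -((H.δ 1).map H.φ * S1.map H.φ) = (-1 : K) • ((H.δ 1).map H.φ * S1.map H.φ) := by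
        rw [neg_smul, one_smul]
      rw [h3, vm_matrix_smul, ← vm_vm, h1, vm_zero, smul_zero]
    rw [h2, add_zero, smul_smul, inv_mul_cancel₀ hv, one_smul]
  obtain ⟨g, hg⟩ : ∃ g : Fin (H.r 0) → ExteriorAlgebra K V,
      g = z0 - fun k => iE H.ε (u k) := ⟨_, rfl⟩
  have hg1 : vm g ((H.δ 0).map H.φ) = 0 := by
    rw [hg, vm_sub, h0]
    funext l
    rw [_root_.Pi.sub_apply, ← iE_vm, hu1, sub_self, _root_.Pi.zero_apply]
  have hg2 : H.φ v' • g = vm g (Pi.map H.φ) := by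
    have h2 : vm g ((H.δ 0).map H.φ * Q.map H.φ) = 0 := by
      rw [← vm_vm, hg1, vm_zero]
    rw [hB, sub_eq_add_neg, vm_matrix_add, vm_matrix_smul, vm_one] at h2
    have h3 : -(Pi.map H.φ) = (-1 : K) • (Pi.map H.φ) := by
      rw [neg_smul, one_smul]
    rw [h3, vm_matrix_smul, neg_smul, one_smul, ← sub_eq_add_neg, sub_eq_zero] at h2
    exact h2
  have hg3 : pf H g = 0 := by
    have h2 : H.φ v' • pf H g = 0 := by
      rw [← pf_smul, hg2]
      exact pf_vm H g Pi hPiJ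
    rcases smul_eq_zero.1 h2 with h3 | h3
    · exact absurd h3 hv'
    · exact h3
  have hz0 : z0 = g + fun k => iE H.ε (u k) := by
    rw [hg, sub_add_cancel]
  have hui : ∀ i, iE H.ε (∑ j, H.φ (H.J i j) • u j) * io (H.D (H.X i)) +
      ((-1 : K) ^ d) • ((∑ j, H.φ (H.J i j) • u j) * iE H.ε (io (H.D (H.X i)))) = 0 := by
    intro i
    have hmem : (∑ j, H.φ (H.J i j) • u j) ∈ Dgf K V d :=
      Submodule.sum_mem _ fun j _ => Submodule.smul_mem _ _ (hud j)
    rw [← dgf_leib H.ε hmem, hdeg _ (dgf_mul hmem (dgf_io _)), map_zero]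
  have hsum := Finset.sum_congr rfl fun (i : Fin H.n) (_ : i ∈ Finset.univ) => hui i
  rw [Finset.sum_add_distrib, ← Finset.smul_sum, tau_u, hu1, Finset.sum_const_zero] at hsum
  rw [prJ_eq, hz0, map_add, hg3, zero_add, pg_apply, ← hsum, pf_apply]
  congr 1
  refine Finset.sum_congr rfl fun i _ => ?_
  congr 1
  rw [map_sum]
  refine Finset.sum_congr rfl fun j _ => ?_
  rw [map_smul]

theorem prJ_mem {ι' : Type w} (y : ι' → R) (T : Set ι') (d : ℕ)
    (z0 : Fin (H.r 0) → ExteriorAlgebra K V) (z1 : Fin (H.r 1) → ExteriorAlgebra K V)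
    (h0 : ∀ j, z0 j ∈ OmT H.φ H.D y T) (h1 : ∀ j, z1 j ∈ OmT H.φ H.D y T) :
    prJ H d z0 z1 ∈ OmT H.φ H.D y T := by
  rw [prJ]
  refine Subring.add_mem _ (Subring.sum_mem _ fun i _ => Subring.mul_mem _
    (Subring.sum_mem _ fun j _ => ?_) ?_) ?_
  · exact om_smul H.φ H.D y T (Subring.subset_closure (Or.inl ⟨_, rfl⟩)) (h0 j)
  · exact Subring.subset_closure (Or.inr ⟨_, rfl⟩)
  · refine om_smul H.φ H.D y T (Subring.pow_mem _ (Subring.neg_mem _ (Subring.one_mem _)) _)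
      (Subring.sum_mem _ fun l _ => ?_)
    exact om_smul H.φ H.D y T (Subring.subset_closure (Or.inl ⟨_, rfl⟩)) (h1 l)

theorem prJ_cob {ι' : Type w} (d : ℕ) (z0 : List ι' → Fin (H.r 0) → ExteriorAlgebra K V)
    (z1 : List ι' → Fin (H.r 1) → ExteriorAlgebra K V) (L : List ι') :
    prJ H d (cob z0 L) (cob z1 L) = cob (fun L' => prJ H d (z0 L') (z1 L')) L := by
  have h1 : (fun L' => prJ H d (z0 L') (z1 L')) = fun L' => pf H (z0 L') + pg H d (z1 L') := rfl
  rw [h1, cob_add (fun L' => pf H (z0 L')) (fun L' => pg H d (z1 L')), cob_map (pf H) z0,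
    cob_map (pg H d) z1]
  rfl

theorem prJ_sub (d : ℕ) (z0 z0' : Fin (H.r 0) → ExteriorAlgebra K V)
    (z1 z1' : Fin (H.r 1) → ExteriorAlgebra K V) :
    prJ H d (z0 - z0') (z1 - z1') = prJ H d z0 z1 - prJ H d z0' z1' := by
  rw [prJ_eq, prJ_eq, prJ_eq, map_sub, map_sub]
  abel

end VG
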