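import Pool.Agent.VG2.Cyc
import Pool.Agent.VG2.LevZ

/-!
Project VG2, module CycM: the standard form `lam_0 ... lam_(d-1)` is a coboundary.
-/

open Matrix

namespace VG

universe u v w

variable {R K V : Type u} [CommRing R] [Field K] [CharZero K] [AddCommGroup V] [Module K V]
  {ι : Type v} {ι' : Type w} (H : FDat R K V ι)

theorem cyc_main (lam : ι' → V) (hlam : ∀ t, H.ε (lam t) = 1) (d : ℕ)
    (hdeg : ∀ z ∈ Dgf K V (d + 1), z = 0) (y : ι' → R)
    (hreg : ∀ (T : Set ι'), ∀ t ∈ T, (io (lam t) : ExteriorAlgebra K V) ∈ OmT H.φ H.D y T)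
    (hc : ∀ (p : ℕ) (L : List ι'), L.Nodup → L.length + p + 1 = d →
      ∃ (v : R) (S0 : Matrix (Fin (H.r (p + 1))) (Fin (H.r p)) R)
        (S1 : Matrix (Fin (H.r (p + 2))) (Fin (H.r (p + 1))) R)
        (S2 : Matrix (Fin (H.r (p + 3))) (Fin (H.r (p + 2))) R),
        H.φ v ≠ 0 ∧ (H.φ v)⁻¹ ∈ BT H.φ y {t | t ∈ L} ∧
        H.δ (p + 1) * S1 + S0 * H.δ p =
          v • (1 : Matrix (Fin (H.r (p + 1))) (Fin (H.r (p + 1))) R) ∧
        H.δ (p + 2) * S2 + S1 * H.δ (p + 1) =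
          v • (1 : Matrix (Fin (H.r (p + 2))) (Fin (H.r (p + 2))) R))
    (v : R) (hv : H.φ v ≠ 0) (S0 : Matrix (Fin (H.r 1)) (Fin (H.r 0)) R)
    (S1 : Matrix (Fin (H.r 2)) (Fin (H.r 1)) R)
    (e1 : H.δ 1 * S1 + S0 * H.δ 0 = v • (1 : Matrix (Fin (H.r 1)) (Fin (H.r 1)) R))
    (v' : R) (hv' : H.φ v' ≠ 0) (Q : Matrix (Fin (H.r 1)) (Fin (H.r 0)) R)
    (Pi : Matrix (Fin (H.r 0)) (Fin (H.r 0)) R)
    (e0 : H.δ 0 * Q = v' • (1 : Matrix (Fin (H.r 0)) (Fin (H.r 0)) R) - Pi)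
    (hPiJ : ∀ j, ∑ i, H.φ ((Pi *ᵥ H.J i) j) • H.D (H.X i) = 0)
    (L : List ι') (hL : L.Nodup) (hLd : L.length = d) :
    ∃ g : List ι' → ExteriorAlgebra K V,
      (∀ (T : Set ι') (L' : List ι'), (∀ t ∈ L', t ∈ T) → g L' ∈ OmT H.φ H.D y T) ∧
      g L = 0 ∧ ((-1) ^ d * mu lam L : ExteriorAlgebra K V) = - cob g L := by
  classical
  obtain ⟨θ0, θ1, hmem, hdg, hcyc⟩ := cyc H lam hlam d hdeg y hreg hc d 0 (add_zero d)
  obtain ⟨h0, h1⟩ := hcyc L hL hLd
  have hz1 : ∀ l, (zt1 H lam d 0 L - cob θ1 L) l ∈ Dgf K V d := by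
    intro l
    refine Submodule.sub_mem _ ?_ ?_
    · have h2 := zt1_deg H lam d 0 L l
      rw [hLd, add_zero] at h2
      exact h2
    · have h3 := cob_map (_root_.Pi.evalAddMonoidHom (fun _ : Fin (H.r 1) => ExteriorAlgebra K V) l) θ1 L
      have h4 : cob θ1 L l = cob (fun L' => θ1 L' l) L := h3.symm
      rw [h4]
      exact cob_mem (Dgf K V d).toAddSubgroup (fun L' => θ1 L' l) L
        (fun L' h5 h6 => hdg L' (hL.sublist h5) (by omega) l)
  have h5 := lev_zero H d hdeg _ _ hz1 h0 h1 v hv S0 S1 e1 v' hv' Q Pi e0 hPiJ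
  rw [prJ_sub, prJ_cob, sub_eq_zero] at h5
  have h6 : prJ H d (zt0 H lam d 0 L) (zt1 H lam d 0 L) = (-1) ^ d * mu lam L := by
    have h7 : (∑ l, H.φ (H.τ l) • zt1 H lam d 0 L l) = mu lam L := by
      have h8 : ∀ l, H.φ (H.τ l) • zt1 H lam d 0 L l = H.φ (H.ψ l * H.τ l) • mu lam L := by
        intro l
        show H.φ (H.τ l) • (mu lam L * algebraMap K (ExteriorAlgebra K V) (H.φ (H.ψ l))) = _
        rw [← Algebra.commutes, ← Algebra.smul_def, smul_smul, map_mul, mul_comm]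
      rw [Finset.sum_congr rfl fun l _ => h8 l, ← Finset.sum_smul, ← map_sum]
      have h9 : ∑ l, H.ψ l * H.τ l = 1 := H.hψ
      rw [h9, map_one, one_smul]
    have h10 : (∑ i, (∑ j, H.φ (H.J i j) • zt0 H lam d 0 L j) * io (H.D (H.X i))) = 0 := by
      refine Finset.sum_eq_zero fun i _ => ?_
      rw [Finset.sum_eq_zero fun j _ => ?_, zero_mul]
      show H.φ (H.J i j) • (0 : ExteriorAlgebra K V) = 0
      rw [smul_zero]
    unfold prJ
    rw [h10, h7, zero_add]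
    rcases Nat.even_or_odd d with he | ho
    · rw [he.neg_one_pow, he.neg_one_pow, one_smul, one_mul]
    · rw [ho.neg_one_pow, ho.neg_one_pow, neg_one_smul, neg_one_mul]
  rw [h6] at h5
  refine ⟨fun L' => if L'.Nodup ∧ L'.length + 1 = d then - prJ H d (θ0 L') (θ1 L') else 0, ?_, ?_, ?_⟩
  · intro T L' hL'
    dsimp only
    split_ifs with hcond
    · obtain ⟨h11, h12⟩ := hmem L' hcond.1 hcond.2 T hL'
      exact Subring.neg_mem _ (prJ_mem H y T d _ _ h11 h12)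
    · exact Subring.zero_mem _
  · have : ¬ (L.Nodup ∧ L.length + 1 = d) := fun h => by omega
    dsimp only
    rw [if_neg this]
  · rw [h5]
    have h13 : cob (fun L' => prJ H d (θ0 L') (θ1 L')) L =
        cob (fun L' => -(if L'.Nodup ∧ L'.length + 1 = d then - prJ H d (θ0 L') (θ1 L') else 0)) L := by
      refine cob_congr _ _ L fun L' h14 h15 => ?_
      rw [if_pos ⟨hL.sublist h14, by omega⟩, neg_neg]
    rw [h13]
    exact cob_map (negAddMonoidHom : ExteriorAlgebra K V →+ ExteriorAlgebra K V)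
      (fun L' => if L'.Nodup ∧ L'.length + 1 = d then - prJ H d (θ0 L') (θ1 L') else 0) L

end VG
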