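import Pool.Agent.VG.ClsT

/-!
Project VG2, module LciQ: primes containing all good denominators of `I` have height at least three.
-/

open Matrix CategoryTheory RingTheory.Sequence

namespace VG

universe u

private theorem lq_sub {A : Type u} [CommRing A] (I : Ideal A) (p : Ideal (A ⧸ I)) [p.IsPrime]
    (P : Ideal A) [P.IsPrime] (hP : P = p.comap (Ideal.Quotient.mk I)) :
    Algebra.algebraMapSubmonoid (A ⧸ I) P.primeCompl = p.primeCompl := by
  ext x
  obtain ⟨a, rfl⟩ := Ideal.Quotient.mk_surjective x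
  constructor
  · rintro ⟨b, hb, hba⟩ hx
    apply hb
    rw [hP, SetLike.mem_coe, Ideal.mem_comap]
    have : Ideal.Quotient.mk I b = Ideal.Quotient.mk I a := hba
    rw [this]
    exact hx
  · intro h
    refine ⟨a, fun ha => h ?_, rfl⟩
    rw [hP, SetLike.mem_coe, Ideal.mem_comap] at ha
    exact ha

private theorem lq_loc {A T : Type u} [CommRing A] [CommRing T] [Algebra A T] (I : Ideal A)
    (p : Ideal (A ⧸ I)) [p.IsPrime] (P : Ideal A) [P.IsPrime]
    (hP : P = p.comap (Ideal.Quotient.mk I)) [IsLocalization.AtPrime T P] :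
    IsLocalization.AtPrime (T ⧸ I.map (algebraMap A T)) p := by
  have h1 : IsLocalization (Algebra.algebraMapSubmonoid (A ⧸ I) P.primeCompl)
      (T ⧸ I.map (algebraMap A T)) := inferInstance
  rw [lq_sub I p P hP] at h1
  exact h1

theorem fti_height {A : Type u} [CommRing A] [IsNoetherianRing A] [IsRegularRing A] (I : Ideal A)
    {μ : ℕ} (f : Fin μ → I) (hspan : Submodule.span A (Set.range f) = ⊤) (r : ℕ → ℕ)
    (σ : Matrix (Fin μ) (Fin (r 0)) (A ⧸ I))
    (δ : ∀ p, Matrix (Fin (r p)) (Fin (r (p + 1))) (A ⧸ I))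
    (cxσ : σ * δ 0 = 0) (cxδ : ∀ p, δ p * δ (p + 1) = 0)
    (exσ : ∀ u, σ *ᵥ u = 0 → ∃ w, u = δ 0 *ᵥ w)
    (exδ : ∀ p u, δ p *ᵥ u = 0 → ∃ w, u = δ (p + 1) *ᵥ w)
    (hK : ∀ u, u ∈ K0 I f ↔ ∃ v, u = σ *ᵥ v) (h : ℕ) (hr : r (h + 1) = 0)
    (Q : Ideal (A ⧸ I)) (hQ : Q.IsPrime)
    (hle : ∀ y : A, FT I y → Ideal.Quotient.mk I y ∈ Q) : (3 : ℕ∞) ≤ Q.height := by
  by_contra hlt
  have hph : Q.height ≤ 2 := by
    rw [not_le] at hlt
    exact Order.le_of_lt_add_one hlt
  obtain ⟨P, hP⟩ : ∃ P, P = Q.comap (Ideal.Quotient.mk I) := ⟨_, rfl⟩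
  have hPp : P.IsPrime := hP ▸ Ideal.comap_isPrime _ _
  have hIP : I ≤ P := by
    intro x hx
    rw [hP, Ideal.mem_comap, Ideal.Quotient.eq_zero_iff_mem.mpr hx]
    exact zero_mem _
  have hregT : IsRegularLocalRing (Localization.AtPrime P) :=
    IsRegularRing.isRegularLocalRing_localization P
  have hregR : IsRegularRing (Localization.AtPrime P) :=
    Pool.Agent.Helper15.NC.isRegularRing_localization A P
  have hne : I.map (algebraMap A (Localization.AtPrime P)) ≠ ⊤ := by
    intro h'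
    have h1 : I.map (algebraMap A (Localization.AtPrime P)) ≤
        P.map (algebraMap A (Localization.AtPrime P)) := Ideal.map_mono hIP
    rw [h', top_le_iff, IsLocalization.AtPrime.map_eq_maximalIdeal P] at h1
    exact Ideal.IsPrime.ne_top (IsLocalRing.maximalIdeal.isMaximal _).isPrime h1
  have hqloc : IsLocalization.AtPrime
      (Localization.AtPrime P ⧸ I.map (algebraMap A (Localization.AtPrime P))) Q := lq_loc I Q P hP
  have hdim : ringKrullDim (Localization.AtPrime P ⧸ I.map (algebraMap A (Localization.AtPrime P))) ≤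
      2 := by
    rw [IsLocalization.AtPrime.ringKrullDim_eq_height Q _]
    exact WithBot.coe_le_coe.mpr hph
  obtain ⟨rs, hrs, hrI⟩ := lci_two' (T := Localization.AtPrime P) P.primeCompl I f hspan r σ δ cxσ
    cxδ exσ exδ hK h hr hne hdim
  obtain ⟨y, hy, hFT⟩ := ft_of_regular P I rs hrs.toIsWeaklyRegular hrI
  apply hy
  rw [hP, Ideal.mem_comap]
  exact hle y hFT

end VG
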