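import Pool.Agent.VG2.SopS
import Pool.Agent.VG.FinK

/-!
Project VG2, module ParS: the graded Noether normalisation used in the main argument.

A chain of primes below the irrelevant ideal is contracted to the polynomial ring.
-/

open MvPolynomial

namespace VG

universe u

variable {k R : Type u} [Field k] [CommRing R] [Algebra k R] (𝒜 : ℤ → Submodule k R)
  [GradedAlgebra 𝒜]

private theorem comap_ltS {A B : Type*} [CommRing A] [CommRing B] (φ : A →+* B) (hφ : φ.Finite)
    {I J : Ideal B} (hI : I.IsPrime) (h : I < J) : I.comap φ < J.comap φ := by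
  let := φ.toAlgebra
  have : Algebra.IsIntegral A B := ⟨fun x => hφ.to_isIntegral x⟩
  exact Ideal.IsIntegral.comap_lt_comap (R := A) (A := B) h

private theorem chain_heightS {A : Type*} [CommRing A] [IsDomain A] {B : Type*} [CommRing B]
    (φ : A →+* B) (hφ : φ.Finite) (l : LTSeries (PrimeSpectrum B))
    (h0 : (l 0).asIdeal.comap φ ≠ ⊥) :
    ((l.length + 1 : ℕ) : ℕ∞) ≤ ((RelSeries.last l).asIdeal.comap φ).height := by
  have key : ∀ (i : ℕ) (hi : i < l.length + 1),
      ((i + 1 : ℕ) : ℕ∞) ≤ ((l ⟨i, hi⟩).asIdeal.comap φ).height := by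
    intro i
    induction i with
    | zero =>
      intro hi
      have : ((l ⟨0, hi⟩).asIdeal.comap φ).IsPrime := Ideal.IsPrime.comap φ
      have : (⊥ : Ideal A).IsPrime := Ideal.isPrime_bot
      have h1 : (⊥ : Ideal A) < (l ⟨0, hi⟩).asIdeal.comap φ := bot_lt_iff_ne_bot.2 h0
      refine le_trans ?_ (Ideal.height_add_one_le_of_lt_of_isPrime h1)
      push_cast
      exact le_add_self
    | succ i ih =>
      intro hi
      have hi' : i < l.length + 1 := by omega
      have h1 := ih hi'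
      have : ((l ⟨i, hi'⟩).asIdeal.comap φ).IsPrime := Ideal.IsPrime.comap φ
      have : ((l ⟨i + 1, hi⟩).asIdeal.comap φ).IsPrime := Ideal.IsPrime.comap φ
      have h2 : l ⟨i, hi'⟩ < l ⟨i + 1, hi⟩ :=
        l.strictMono (Fin.mk_lt_mk.2 (Nat.lt_succ_self i))
      have h3 : (l ⟨i, hi'⟩).asIdeal < (l ⟨i + 1, hi⟩).asIdeal := h2
      have h4 := Ideal.height_add_one_le_of_lt_of_isPrime
        (comap_ltS φ hφ (l ⟨i, hi'⟩).isPrime h3)
      refine le_trans ?_ h4
      push_cast at h1 ⊢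
      exact add_le_add h1 le_rfl
  exact key l.length (Nat.lt_succ_self _)

theorem exists_parS [Nontrivial R] [IsNoetherianRing R] (hC : Conn 𝒜) (c : ℕ → Ideal R)
    (hc : ∀ p, (c p).IsHomogeneous 𝒜) (hmono : ∀ p, c p ≤ c (p + 1))
    (hcp : ∀ (p : ℕ) (q : Ideal R), q.IsPrime → c p ≤ q → ((p + 3 : ℕ) : ℕ∞) ≤ q.height) :
    ∃ (q : Ideal R) (d : ℕ) (y : Fin d → R) (b : Fin d → ℤ), q.IsPrime ∧ q.IsHomogeneous 𝒜 ∧
      q.height = 0 ∧ (irr 𝒜).height = d ∧ (∀ a, 0 < b a ∧ y a ∈ 𝒜 (b a)) ∧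
      (∀ (p : ℕ) (a : Fin d), a.val ≤ p + 1 → y a ∈ c p) ∧
      (∀ p, d ≤ p + 2 → c p = ⊤) ∧
      Function.Injective (aeval (fun a => Ideal.Quotient.mk q (y a)) :
        MvPolynomial (Fin d) k →ₐ[k] R ⧸ q) ∧
      (aeval (fun a => Ideal.Quotient.mk q (y a)) :
        MvPolynomial (Fin d) k →ₐ[k] R ⧸ q).toRingHom.Finite := by
  have hmax := irr_isMaximal 𝒜 hC
  have hprime : (irr 𝒜).IsPrime := hmax.isPrime
  obtain ⟨l, hlast, hlen⟩ := Ideal.exists_ltSeries_length_eq_height (irr 𝒜)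
  have hd : (irr 𝒜).height = (l.length : ℕ∞) := hlen.symm
  obtain ⟨y, b, N, hy, hyJ, hN⟩ := exists_sopS 𝒜 hC c hc hmono l.length hd hcp
  have hfin := finite_of_sop 𝒜 hC y b hy N hN
  have := (l 0).isPrime
  obtain ⟨q, hq, hq0⟩ := Ideal.exists_minimalPrimes_le (bot_le : ⊥ ≤ (l 0).asIdeal)
  have hqp : q.IsPrime := hq.1.1
  have hq1 : q.height = 0 := by
    rw [Ideal.height_eq_zero_iff]
    exact hq
  have htop : ∀ p, l.length ≤ p + 2 → c p = ⊤ := by
    intro p hp
    by_contra hne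
    have h1 : c p ≤ irr 𝒜 := hom_le_irr 𝒜 hC (c p) (hc p) hne
    have h2 := hcp p (irr 𝒜) hprime h1
    rw [hd] at h2
    have h3 : p + 3 ≤ l.length := by exact_mod_cast h2
    omega
  have hcomp : ∀ p : MvPolynomial (Fin l.length) k,
      (aeval (fun a => Ideal.Quotient.mk q (y a)) :
        MvPolynomial (Fin l.length) k →ₐ[k] R ⧸ q) p =
      Ideal.Quotient.mk q ((aeval y : MvPolynomial (Fin l.length) k →ₐ[k] R) p) := by
    have h1 : (aeval (fun a => Ideal.Quotient.mk q (y a)) :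
        MvPolynomial (Fin l.length) k →ₐ[k] R ⧸ q) = (Ideal.Quotient.mkₐ k q).comp
          (aeval y : MvPolynomial (Fin l.length) k →ₐ[k] R) := by
      apply MvPolynomial.algHom_ext
      intro a
      rw [AlgHom.comp_apply, aeval_X, aeval_X]
      rfl
    intro p
    rw [h1]
    rfl
  refine ⟨q, l.length, y, b, hqp, minimal_hom 𝒜 ⊥ (Ideal.IsHomogeneous.bot 𝒜) q hq, hq1, hd, hy,
    hyJ, htop, ?_, ?_⟩
  · rw [injective_iff_map_eq_zero]
    intro x hx
    by_contra hx0
    rw [hcomp, Ideal.Quotient.eq_zero_iff_mem] at hx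
    have h1 : (l 0).asIdeal.comap
        (aeval y : MvPolynomial (Fin l.length) k →ₐ[k] R).toRingHom ≠ ⊥ := by
      intro h2
      apply hx0
      have h3 : x ∈ (l 0).asIdeal.comap
          (aeval y : MvPolynomial (Fin l.length) k →ₐ[k] R).toRingHom := hq0 hx
      rw [h2, Ideal.mem_bot] at h3
      exact h3
    have h2 := chain_heightS _ hfin l h1
    have : ((RelSeries.last l).asIdeal.comap
        (aeval y : MvPolynomial (Fin l.length) k →ₐ[k] R).toRingHom).IsPrime :=
      Ideal.IsPrime.comap _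
    have h3 := Ideal.height_le_ringKrullDim_of_isPrime (I := (RelSeries.last l).asIdeal.comap
        (aeval y : MvPolynomial (Fin l.length) k →ₐ[k] R).toRingHom)
    rw [MvPolynomial.ringKrullDim_of_isNoetherianRing, ringKrullDim_eq_zero_of_field, zero_add,
      Nat.card_fin] at h3
    have h4 : (((l.length + 1 : ℕ) : ℕ∞) : WithBot ℕ∞) ≤ ((l.length : ℕ) : WithBot ℕ∞) :=
      (WithBot.coe_le_coe.2 h2).trans h3
    have h5 : ((l.length + 1 : ℕ) : ℕ∞) ≤ ((l.length : ℕ) : ℕ∞) := by exact_mod_cast h4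
    have h6 : l.length + 1 ≤ l.length := by exact_mod_cast h5
    omega
  · have h1 : (aeval (fun a => Ideal.Quotient.mk q (y a)) :
        MvPolynomial (Fin l.length) k →ₐ[k] R ⧸ q).toRingHom =
        (Ideal.Quotient.mk q).comp
          (aeval y : MvPolynomial (Fin l.length) k →ₐ[k] R).toRingHom :=
      RingHom.ext fun p => hcomp p
    rw [h1]
    exact RingHom.Finite.comp (RingHom.Finite.of_surjective _ Ideal.Quotient.mk_surjective) hfin

end VG
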