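import Pool.Agent.VG.Contra
import Pool.Agent.VG.Tau
import Pool.Agent.VG.HtpA
import Pool.Agent.VG.HtpB
import Pool.Agent.VG.FTI
import Pool.Agent.VG.Fld
import Pool.Agent.VG.Eul
import Pool.Agent.VG2.CycM
import Pool.Agent.VG2.CidH
import Pool.Agent.VG2.CidHt
import Pool.Agent.VG2.ParS
import Pool.Agent.VG2.LciQ

/-!
Project VG2, assembly of the graded contradiction (no hypothesis on the non complete intersection
locus).
-/

open MvPolynomial Matrix

namespace VG

universe u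

variable {k : Type u} [Field k] [CharZero k] {n : ℕ} (w : Fin n → ℤ)
  (I : Ideal (MvPolynomial (Fin n) k))

private theorem zero_of_deg {R : Type u} [CommRing R] [Algebra k R] (𝒜 : ℤ → Submodule k R)
    [GradedAlgebra 𝒜] (hC : Conn 𝒜) {e : ℤ} (he : e ≤ 0) {x : R} (hx : x ∈ 𝒜 e)
    (hi : x ∈ irr 𝒜) : x = 0 := by
  rcases lt_or_eq_of_le he with h | h
  · exact hC.neg e h x hx
  · subst h
    have h1 := (irr_iff 𝒜 hC x).mp hi
    rwa [gc_same 𝒜 hx] at h1

private theorem small_mem {d : ℕ} (p : ℕ) (L : List (Fin d)) (hL : L.Nodup)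
    (hLp : L.length + p + 1 = d) : (∃ a ∈ L, a.val ≤ p + 1) ∨ d ≤ p + 2 := by
  classical
  by_contra hcon
  push Not at hcon
  obtain ⟨h1, h2⟩ := hcon
  have h3 : L.toFinset ⊆ Finset.univ.filter (fun a : Fin d => p + 1 < a.val) := by
    intro a ha
    rw [Finset.mem_filter]
    exact ⟨Finset.mem_univ a, h1 a (by simpa using ha)⟩
  have h4 := Finset.card_le_card h3
  rw [List.toFinset_card_of_nodup hL] at h4
  have h5 : (Finset.univ.filter (fun a : Fin d => p + 1 < a.val)).card ≤ d - (p + 2) := by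
    have h6 : ((Finset.univ.filter (fun a : Fin d => p + 1 < a.val)).image
        (fun a : Fin d => a.val)) ⊆ Finset.Ico (p + 2) d := by
      intro x hx
      rw [Finset.mem_image] at hx
      obtain ⟨a, ha, rfl⟩ := hx
      rw [Finset.mem_filter] at ha
      rw [Finset.mem_Ico]
      exact ⟨ha.2, a.2⟩
    have h7 := Finset.card_le_card h6
    rw [Finset.card_image_of_injective _ Fin.val_injective, Nat.card_Ico] at h7
    exact h7
  omega

theorem graded_contra2 (hw : ∀ i, 0 < w i) (hI : HomI w I)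
    (hIm : I ≤ Ideal.span (Set.range (X : Fin n → MvPolynomial (Fin n) k)))
    {μ : ℕ} (f : Fin μ → I) (t : Fin μ → ℤ)
    (hspan : Submodule.span (MvPolynomial (Fin n) k) (Set.range f) = ⊤)
    (r : ℕ → ℕ) (a : ∀ p, Fin (r p) → ℤ)
    (σ : Matrix (Fin μ) (Fin (r 0)) (MvPolynomial (Fin n) k ⧸ I))
    (δ : ∀ p, Matrix (Fin (r p)) (Fin (r (p + 1))) (MvPolynomial (Fin n) k ⧸ I))
    (hres : IsRes (qgr w I) t r a σ δ) (hK : ∀ u, u ∈ K0 I f ↔ ∃ v, u = σ *ᵥ v)
    (J : Fin n → Fin (r 0) → MvPolynomial (Fin n) k ⧸ I)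
    (τ : Fin (r 1) → MvPolynomial (Fin n) k ⧸ I) (l : Fin (r 1)) (c : k)
    (hJ : ∀ i, evf I f (dfun I i) = σ *ᵥ J i)
    (hτ : ∀ j, ∑ i, ((w i : ℤ) : MvPolynomial (Fin n) k ⧸ I) *
      Ideal.Quotient.mk I (X i) * J i j = (δ 0 *ᵥ τ) j)
    (hl : a 1 l = 0) (hc : c ≠ 0) (hτl : τ l = algebraMap k _ c)
    (h : ℕ) (hr : r (h + 1) = 0) : False := by
  classical
  letI iG : GradedAlgebra (qgr w I) := qGraded w I hI
  have hC : Conn (qgr w I) := qgr_conn w I hw
  have hne : I ≠ ⊤ := by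
    intro htop
    have h1 : (1 : MvPolynomial (Fin n) k) ∈
        Ideal.span (Set.range (X : Fin n → MvPolynomial (Fin n) k)) := hIm (htop ▸ trivial)
    have h2 : ∀ p ∈ Ideal.span (Set.range (X : Fin n → MvPolynomial (Fin n) k)),
        constantCoeff p = 0 := by
      intro p hp
      have h3 : Ideal.span (Set.range (X : Fin n → MvPolynomial (Fin n) k)) ≤
          RingHom.ker (constantCoeff : MvPolynomial (Fin n) k →+* k) := by
        rw [Ideal.span_le]
        rintro _ ⟨i, rfl⟩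
        simp
      exact h3 hp
    have h4 := h2 1 h1
    simp at h4
  haveI : Nontrivial (MvPolynomial (Fin n) k ⧸ I) := Ideal.Quotient.nontrivial_iff.mpr hne
  have hcp : ∀ (p : ℕ) (Q : Ideal (MvPolynomial (Fin n) k ⧸ I)), Q.IsPrime → CI r δ p ≤ Q →
      ((p + 3 : ℕ) : ℕ∞) ≤ Q.height := fun p Q hQ hle =>
    cid_height I f hspan r σ δ hres.cxσ hres.cxδ hres.exσ hres.exδ hK h hr p Q hQ hle
  obtain ⟨q, d, y, b, hq, hqh, hq0, hd, hy, hyc, hone, hinj, hfin⟩ := exists_parS (qgr w I) hC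
    (CI r δ) (fun p => cid_hom (qgr w I) r a δ hres.homδ p)
    (fun p => cid_mono r δ hres.cxδ hres.exδ p) hcp
  haveI := hq
  obtain ⟨F, K, iF, iK, i1, i2, i3, i4, i5, i6, φ', hφ'inj, hφ'g, hφ'int⟩ := exists_field
    (aeval (fun a => Ideal.Quotient.mk q (y a)) :
        MvPolynomial (Fin d) k →ₐ[k] (MvPolynomial (Fin n) k ⧸ I) ⧸ q).toRingHom hinj hfin
  have hYK : Function.Injective (algebraMap (MvPolynomial (Fin d) k) K) := by
    intro p p' hpp
    rw [← hφ'g, ← hφ'g] at hpp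
    exact hinj (hφ'inj hpp)
  haveI : CharZero K := charZero_of_injective_ringHom hYK
  obtain ⟨dF, dK, hcd, hYd⟩ := exists_der (k := k) (d := d) F K
  set φ : (MvPolynomial (Fin n) k ⧸ I) →+* K := φ'.comp (Ideal.Quotient.mk q) with hφ
  have hφY : ∀ a, φ (y a) = algebraMap (MvPolynomial (Fin d) k) K (X a) := by
    intro a
    rw [← hφ'g]
    simp [hφ]
  have hφk : ∀ c : k, φ (algebraMap k _ c) = algebraMap (MvPolynomial (Fin d) k) K (C c) := by
    intro c
    rw [← hφ'g]
    simp only [hφ, RingHom.comp_apply, AlgHom.toRingHom_eq_coe, RingHom.coe_coe]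
    congr 1
    rw [← MvPolynomial.algebraMap_eq, AlgHom.commutes]
    rfl
  have hφint : ∀ x, IsIntegral (MvPolynomial (Fin d) k) (φ x) := fun x => hφ'int _
  have hdK : ∀ a (p : MvPolynomial (Fin d) k),
      dK a (algebraMap _ K p) = algebraMap _ K (pderiv a p) := by
    intro a p
    rw [IsScalarTower.algebraMap_apply (MvPolynomial (Fin d) k) F K, hcd, hYd,
      ← IsScalarTower.algebraMap_apply]
  have hker : ∀ x, φ x = 0 → ∀ e, φ (gc (qgr w I) e x) = 0 := by
    intro x hx e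
    have h1 : x ∈ q := by
      rw [← Ideal.Quotient.eq_zero_iff_mem]
      apply hφ'inj
      rw [map_zero]
      exact hx
    have h2 := (hom_iff (qgr w I) q).mp hqh x h1 e
    rw [hφ, RingHom.comp_apply, Ideal.Quotient.eq_zero_iff_mem.mpr h2, map_zero]
  have heul := euler_K (qgr w I) y b (fun a => (hy a).2) hYK φ hφk hφY hφint hker dK hdK
  -- the derivation and the contraction
  let D : (MvPolynomial (Fin n) k ⧸ I) →+ (Fin d → K) :=
    { toFun := fun x a => dK a (φ x)
      map_zero' := by funext a; simp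
      map_add' := by intro x z; funext a; simp }
  let ε : (Fin d → K) →ₗ[K] K := ∑ a, (((b a : ℤ) : K) * φ (y a)) • LinearMap.proj a
  have hε : ∀ v : Fin d → K, ε v = ∑ a, ((b a : ℤ) : K) * φ (y a) * v a := by
    intro v
    simp [ε, LinearMap.sum_apply]
  have hDapp : ∀ x a, D x a = dK a (φ x) := fun x a => rfl
  have heulD : ∀ e x, x ∈ qgr w I e → ε (D x) = ((e : ℤ) : K) * φ x := by
    intro e x hx
    rw [hε]
    exact heul e x hx
  have hleib : ∀ x z, D (x * z) = φ x • D z + φ z • D x := by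
    intro x z
    funext a
    simp only [hDapp, map_mul, Derivation.leibniz, Pi.add_apply, Pi.smul_apply]
  have hDc : ∀ c : k, D (algebraMap k _ c) = 0 := by
    intro c
    funext a
    rw [hDapp, hφk, hdK]
    simp
  have hDX : ∀ p : MvPolynomial (Fin n) k, D (Ideal.Quotient.mk I p) =
      ∑ i, φ (Ideal.Quotient.mk I (pderiv i p)) • D (Ideal.Quotient.mk I (X i)) := by
    intro p
    induction p using MvPolynomial.induction_on with
    | C c =>
      have h1 : (Ideal.Quotient.mk I (C c) : MvPolynomial (Fin n) k ⧸ I) = algebraMap k _ c := rfl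
      rw [h1, hDc]
      simp
    | add p p' hp hp' =>
      rw [map_add, map_add, hp, hp', ← Finset.sum_add_distrib]
      refine Finset.sum_congr rfl fun i _ => ?_
      rw [map_add, map_add, map_add, add_smul]
    | mul_X p j hp =>
      rw [map_mul, hleib, hp]
      have h1 : ∀ i, φ (Ideal.Quotient.mk I (pderiv i (p * X j))) •
          D (Ideal.Quotient.mk I (X i)) =
          (if i = j then φ (Ideal.Quotient.mk I p) • D (Ideal.Quotient.mk I (X i)) else 0) +
          φ (Ideal.Quotient.mk I (X j)) • (φ (Ideal.Quotient.mk I (pderiv i p)) •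
            D (Ideal.Quotient.mk I (X i))) := by
        intro i
        rw [Derivation.leibniz, pderiv_X]
        rcases eq_or_ne i j with rfl | hij
        · simp [add_smul, mul_smul]
        · simp [hij, mul_smul, hij.symm]
      rw [Finset.sum_congr rfl fun i _ => h1 i, Finset.sum_add_distrib, Finset.sum_ite_eq',
        if_pos (Finset.mem_univ j), ← Finset.smul_sum]
  have hDI : ∀ ρ ∈ I, ∑ i, φ (Ideal.Quotient.mk I (pderiv i ρ)) •
      D (Ideal.Quotient.mk I (X i)) = 0 := by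
    intro ρ hρ
    rw [← hDX, Ideal.Quotient.eq_zero_iff_mem.mpr hρ, map_zero]
  -- the generic section
  obtain ⟨v', hv'F, hv'q⟩ : ∃ v' : MvPolynomial (Fin n) k, FT I v' ∧ Ideal.Quotient.mk I v' ∉ q := by
    by_contra hcon
    push Not at hcon
    have h1 := fti_height I f hspan r σ δ hres.cxσ hres.cxδ hres.exσ hres.exδ hK h hr q hq hcon
    rw [hq0] at h1
    exact absurd h1 (by decide)
  have hφq : ∀ x, x ∉ q → φ x ≠ 0 := by
    intro x hx h0
    apply hx
    rw [← Ideal.Quotient.eq_zero_iff_mem]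
    apply hφ'inj
    rw [map_zero]
    exact h0
  obtain ⟨P', hP', hρ⟩ := exists_section I f hspan (r 0) σ hK J hJ v' hv'F
  obtain ⟨sv, hsv0, hsv1, hsv2⟩ := exists_htpy r σ δ hres.cxσ hres.cxδ hres.exσ hres.exδ
    (Ideal.Quotient.mk I v') P' hP'
  have hyK0 : ∀ a, φ (y a) ≠ 0 := by
    intro a h0
    rw [hφY, ← map_zero (algebraMap (MvPolynomial (Fin d) k) K)] at h0
    exact X_ne_zero a (hYK h0)
  have hbne : ∀ a, ((b a : ℤ) : k) ≠ 0 := fun a => by
    have := (hy a).1
    exact_mod_cast this.ne'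
  have hinvK : ∀ z : k, φ (algebraMap k _ z⁻¹) = (φ (algebraMap k _ z))⁻¹ := fun z =>
    map_inv₀ (φ.comp (algebraMap k (MvPolynomial (Fin n) k ⧸ I))) z
  have hintK : ∀ m : ℤ, φ (algebraMap k _ ((m : ℤ) : k)) = ((m : ℤ) : K) := fun m =>
    map_intCast (φ.comp (algebraMap k (MvPolynomial (Fin n) k ⧸ I))) m
  have hX : ∀ i, Ideal.Quotient.mk I (X i) ∈ qgr w I (w i) := by
    intro i
    refine ⟨X i, ?_, rfl⟩
    exact (mem_weightedHomogeneousSubmodule k w (w i) (X i)).mpr (isWeightedHomogeneous_X k w i)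
  let ψ : Fin (r 1) → MvPolynomial (Fin n) k ⧸ I := Pi.single l (algebraMap k _ c⁻¹)
  have hcj : ∀ j, (ψ ᵥ* δ 1) j = algebraMap k _ c⁻¹ * δ 1 l j := by
    intro j
    simp [ψ, Matrix.vecMul, single_dotProduct]
  have hcjd : ∀ j, (ψ ᵥ* δ 1) j ∈ qgr w I (a 2 j) := by
    intro j
    rw [hcj, ← Algebra.smul_def]
    have h1 := hres.homδ 1 l j
    rw [hl, sub_zero] at h1
    exact Submodule.smul_mem _ _ h1
  have hcji : ∀ j, (ψ ᵥ* δ 1) j ∈ irr (qgr w I) := by
    intro j
    rw [hcj]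
    exact Ideal.mul_mem_left _ _ (hres.minδ 1 l j)
  let H : FDat (MvPolynomial (Fin n) k ⧸ I) K (Fin d → K) (Fin 0) :=
    { φ := φ
      D := D
      ε := ε
      leib := hleib
      r := r
      a := a
      δ := δ
      cx := hres.cxδ
      eulδ := fun p i j => heulD _ _ (hres.homδ p i j)
      posδ := fun p i j hle => zero_of_deg (qgr w I) hC hle (hres.homδ p i j) (hres.minδ p i j)
      ψ := ψ
      eulc := fun j => heulD _ _ (hcjd j)
      posc := fun j hle => zero_of_deg (qgr w I) hC hle (hcjd j) (hcji j)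
      n := n
      X := fun i => Ideal.Quotient.mk I (X i)
      w := w
      eulX := fun i => heulD _ _ (hX i)
      J := J
      τ := τ
      hτ := hτ
      hψ := by
        simp only [ψ, single_dotProduct, hτl]
        rw [← map_mul, inv_mul_cancel₀ hc, map_one]
      y := Fin.elim0
      y0 := fun t => t.elim0
      κ := Fin.elim0
      hκ := fun t => t.elim0
      s := fun t => t.elim0
      Pi := Fin.elim0
      h0 := fun t => t.elim0
      h1 := fun t => t.elim0
      hPi0 := fun t => t.elim0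
      hPiJ := fun t => t.elim0
      inv := fun m => ⟨algebraMap k _ ((m : ℤ) : k)⁻¹, by rw [hinvK, hintK]⟩ }
  have hDY : ∀ j, D (y j) = Pi.single j 1 := by
    intro j
    funext i
    rw [hDapp, hφY, hdK, pderiv_X]
    rcases eq_or_ne i j with rfl | hij
    · simp
    · simp [hij, Pi.single_apply, hij.symm]
  -- the logarithmic forms
  let lam : Fin d → (Fin d → K) := fun t =>
    (φ (algebraMap k _ ((b t : ℤ) : k)⁻¹) * (φ (y t))⁻¹) • D (y t)
  have hlam : ∀ t, ε (lam t) = 1 := by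
    intro t
    simp only [lam, map_smul, smul_eq_mul]
    rw [heulD _ _ (hy t).2, hinvK, hintK]
    have h1 : ((b t : ℤ) : K) ≠ 0 := by
      have := (hy t).1
      exact_mod_cast this.ne'
    have h2 := hyK0 t
    field_simp
  have hBT : ∀ (T : Set (Fin d)) (x : MvPolynomial (Fin n) k ⧸ I), φ x ∈ BT φ y T :=
    fun T x => Subring.subset_closure (Or.inl ⟨x, rfl⟩)
  have hBTi : ∀ (T : Set (Fin d)), ∀ t ∈ T, (φ (y t))⁻¹ ∈ BT φ y T :=
    fun T t ht => Subring.subset_closure (Or.inr ⟨t, ht, rfl⟩)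
  have hreg : ∀ (T : Set (Fin d)), ∀ t ∈ T,
      (io (lam t) : ExteriorAlgebra K (Fin d → K)) ∈ OmT H.φ H.D y T := by
    intro T t ht
    have h1 : (io (lam t) : ExteriorAlgebra K (Fin d → K)) =
        (φ (algebraMap k _ ((b t : ℤ) : k)⁻¹) * (φ (y t))⁻¹) • io (D (y t)) := map_smul _ _ _
    rw [h1]
    exact om_smul φ D y T (Subring.mul_mem _ (hBT T _) (hBTi T t ht))
      (Subring.subset_closure (Or.inr ⟨y t, rfl⟩))
  have hthree : ∀ (p : ℕ) (v : MvPolynomial (Fin n) k ⧸ I), v ∈ CI r δ p →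
      ∃ (S0 : Matrix (Fin (r (p + 1))) (Fin (r p)) (MvPolynomial (Fin n) k ⧸ I))
        (S1 : Matrix (Fin (r (p + 2))) (Fin (r (p + 1))) (MvPolynomial (Fin n) k ⧸ I))
        (S2 : Matrix (Fin (r (p + 3))) (Fin (r (p + 2))) (MvPolynomial (Fin n) k ⧸ I)),
        δ (p + 1) * S1 + S0 * δ p = v • (1 : Matrix (Fin (r (p + 1))) (Fin (r (p + 1))) _) ∧
        δ (p + 2) * S2 + S1 * δ (p + 1) =
          v • (1 : Matrix (Fin (r (p + 2))) (Fin (r (p + 2))) _) :=
    fun p v hv => cid_three r δ hres.cxδ hres.exδ p v hv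
  have hcc : ∀ (p : ℕ) (L : List (Fin d)), L.Nodup → L.length + p + 1 = d →
      ∃ (v : MvPolynomial (Fin n) k ⧸ I)
        (S0 : Matrix (Fin (H.r (p + 1))) (Fin (H.r p)) (MvPolynomial (Fin n) k ⧸ I))
        (S1 : Matrix (Fin (H.r (p + 2))) (Fin (H.r (p + 1))) (MvPolynomial (Fin n) k ⧸ I))
        (S2 : Matrix (Fin (H.r (p + 3))) (Fin (H.r (p + 2))) (MvPolynomial (Fin n) k ⧸ I)),
        H.φ v ≠ 0 ∧ (H.φ v)⁻¹ ∈ BT H.φ y {t | t ∈ L} ∧
        H.δ (p + 1) * S1 + S0 * H.δ p =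
          v • (1 : Matrix (Fin (H.r (p + 1))) (Fin (H.r (p + 1))) _) ∧
        H.δ (p + 2) * S2 + S1 * H.δ (p + 1) =
          v • (1 : Matrix (Fin (H.r (p + 2))) (Fin (H.r (p + 2))) _) := by
    intro p L hL hLp
    rcases small_mem p L hL hLp with ⟨t, ht, htp⟩ | hdp
    · obtain ⟨S0, S1, S2, e1, e2⟩ := hthree p (y t) (hyc p t htp)
      exact ⟨y t, S0, S1, S2, hyK0 t, hBTi _ t ht, e1, e2⟩
    · have h1 : (1 : MvPolynomial (Fin n) k ⧸ I) ∈ CI r δ p := by
        rw [hone p hdp]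
        trivial
      obtain ⟨S0, S1, S2, e1, e2⟩ := hthree p 1 h1
      refine ⟨1, S0, S1, S2, ?_, ?_, e1, e2⟩
      · show φ 1 ≠ 0
        rw [map_one]
        exact one_ne_zero
      · show (φ 1)⁻¹ ∈ _
        rw [map_one, inv_one]
        exact Subring.one_mem _
  obtain ⟨v, hv, hvK⟩ : ∃ v, v ∈ CI r δ 0 ∧ φ v ≠ 0 := by
    rcases Nat.eq_zero_or_pos d with h0 | h0
    · refine ⟨1, ?_, ?_⟩
      · rw [hone 0 (by omega)]
        trivial
      · rw [map_one]
        exact one_ne_zero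
    · exact ⟨y ⟨0, h0⟩, hyc 0 ⟨0, h0⟩ (by simp), hyK0 _⟩
  obtain ⟨S0, S1, S2, e1, e2⟩ := hthree 0 v hv
  have hPiJ : ∀ j, ∑ i, H.φ (((P' * σ) *ᵥ H.J i) j) • H.D (H.X i) = 0 := by
    intro j
    obtain ⟨ρ, hρI, hρ'⟩ := hρ j
    rw [← hDI ρ hρI]
    exact Finset.sum_congr rfl fun i _ => by
      show φ (((P' * σ) *ᵥ J i) j) • D (Ideal.Quotient.mk I (X i)) = _
      rw [hρ' i]
  obtain ⟨g, hg, hgL, hid⟩ := cyc_main H lam hlam d
    (fun z hz => dgf_top (Nat.lt_succ_self d) hz) y hreg hcc v hvK S0 S1 e1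
    (Ideal.Quotient.mk I v') (hφq _ hv'q) (sv 0) (P' * σ) hsv0 hPiJ (List.finRange d)
    (List.nodup_finRange d) List.length_finRange
  rcases Nat.eq_zero_or_pos d with h0 | h0
  · subst h0
    have h1 : (1 : ExteriorAlgebra K (Fin 0 → K)) = 0 := by
      have h2 : ((-1) ^ 0 * mu lam (List.finRange 0) : ExteriorAlgebra K (Fin 0 → K)) = 1 := by
        simp [mu]
      rw [← h2, hid]
      simp
    exact one_ne_zero h1
  · obtain ⟨d', rfl⟩ : ∃ d', d = d' + 1 := ⟨d - 1, by omega⟩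
    refine final_contra (le_refl (d' + 1)) dF dK hcd hYd φ hφint D hDapp y hφY ε
      (fun a => ((b a : ℤ) : k)) ?_ lam (fun t => ((b t : ℤ) : k)⁻¹)
      (fun t => inv_ne_zero (hbne _)) ?_ g ?_ ?_
    · intro t
      rw [hε, Finset.sum_eq_single t]
      · simp only [Pi.single_eq_same, mul_one, map_mul, hφY, ← hφk, hintK]
      · intro j _ hj
        simp [hj]
      · simp
    · intro t
      change (φ (algebraMap k _ ((b t : ℤ) : k)⁻¹) * (φ (y t))⁻¹) • D (y t) = _
      rw [hDY, hφk]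
      simp
    · intro T L hL
      have h1 : (fun t => y (Fin.castLE (le_refl (d' + 1)) t)) = y := by
        funext t
        simp
      rw [h1]
      exact hg (T : Set (Fin (d' + 1))) L hL
    · rw [hid, hgL, map_zero, zero_sub]

end VG
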