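import Pool.Agent.VG2.Dgf

/-!
Project VG2, module Vm: row vectors of forms times matrices.
-/

open Matrix

namespace VG

universe u w

variable {K V : Type u} [Field K] [AddCommGroup V] [Module K V] {ι : Type w}

/-- row vector of forms times a matrix -/
noncomputable def vm {a b : ℕ} (z : Fin a → ExteriorAlgebra K V) (M : Matrix (Fin a) (Fin b) K) :
    Fin b → ExteriorAlgebra K V := fun l => ∑ k, M k l • z k

private theorem vm_apply' {a b : ℕ} (z : Fin a → ExteriorAlgebra K V) (M : Matrix (Fin a) (Fin b) K)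
    (l : Fin b) : vm z M l = ∑ k, M k l • z k := rfl

theorem vm_vm {a b c : ℕ} (z : Fin a → ExteriorAlgebra K V) (M : Matrix (Fin a) (Fin b) K)
    (N : Matrix (Fin b) (Fin c) K) : vm (vm z M) N = vm z (M * N) := by
  funext l
  rw [vm_apply', vm_apply']
  have h1 : ∀ k, N k l • vm z M k = ∑ j, (M j k * N k l) • z j := by
    intro k
    rw [vm_apply', Finset.smul_sum]
    refine Finset.sum_congr rfl fun j _ => ?_
    rw [smul_smul, mul_comm]
  rw [Finset.sum_congr rfl fun k _ => h1 k, Finset.sum_comm]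
  refine Finset.sum_congr rfl fun j _ => ?_
  rw [Matrix.mul_apply, Finset.sum_smul]

theorem vm_one {a : ℕ} (z : Fin a → ExteriorAlgebra K V) : vm z 1 = z := by
  funext l
  rw [vm_apply', Finset.sum_eq_single l]
  · rw [Matrix.one_apply_eq, one_smul]
  · intro k _ hk
    rw [Matrix.one_apply_ne hk, zero_smul]
  · intro h
    exact absurd (Finset.mem_univ l) h

theorem vm_zero {a b : ℕ} (M : Matrix (Fin a) (Fin b) K) :
    vm (0 : Fin a → ExteriorAlgebra K V) M = 0 := by
  funext l
  rw [vm_apply']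
  refine Finset.sum_eq_zero fun k _ => ?_
  rw [Pi.zero_apply, smul_zero]

theorem vm_matrix_add {a b : ℕ} (z : Fin a → ExteriorAlgebra K V) (M N : Matrix (Fin a) (Fin b) K) :
    vm z (M + N) = vm z M + vm z N := by
  funext l
  rw [Pi.add_apply, vm_apply', vm_apply', vm_apply', ← Finset.sum_add_distrib]
  refine Finset.sum_congr rfl fun k _ => ?_
  rw [Matrix.add_apply, add_smul]

theorem vm_matrix_smul {a b : ℕ} (c : K) (z : Fin a → ExteriorAlgebra K V)
    (M : Matrix (Fin a) (Fin b) K) : vm z (c • M) = c • vm z M := by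
  funext l
  rw [Pi.smul_apply, vm_apply', vm_apply', Finset.smul_sum]
  refine Finset.sum_congr rfl fun k _ => ?_
  rw [Matrix.smul_apply, smul_assoc]

theorem vm_add {a b : ℕ} (z z' : Fin a → ExteriorAlgebra K V) (M : Matrix (Fin a) (Fin b) K) :
    vm (z + z') M = vm z M + vm z' M := by
  funext l
  rw [Pi.add_apply, vm_apply', vm_apply', vm_apply', ← Finset.sum_add_distrib]
  refine Finset.sum_congr rfl fun k _ => ?_
  rw [Pi.add_apply, smul_add]

theorem vm_sub {a b : ℕ} (z z' : Fin a → ExteriorAlgebra K V) (M : Matrix (Fin a) (Fin b) K) :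
    vm (z - z') M = vm z M - vm z' M := by
  funext l
  rw [Pi.sub_apply, vm_apply', vm_apply', vm_apply', ← Finset.sum_sub_distrib]
  refine Finset.sum_congr rfl fun k _ => ?_
  rw [Pi.sub_apply, smul_sub]

theorem vm_smul {a b : ℕ} (c : K) (z : Fin a → ExteriorAlgebra K V)
    (M : Matrix (Fin a) (Fin b) K) : vm (c • z) M = c • vm z M := by
  funext l
  rw [Pi.smul_apply, vm_apply', vm_apply', Finset.smul_sum]
  refine Finset.sum_congr rfl fun k _ => ?_
  rw [Pi.smul_apply, smul_comm]

theorem iE_vm (ε : V →ₗ[K] K) {a b : ℕ} (z : Fin a → ExteriorAlgebra K V)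
    (M : Matrix (Fin a) (Fin b) K) (l : Fin b) :
    iE ε (vm z M l) = vm (fun k => iE ε (z k)) M l := by
  rw [vm_apply', vm_apply', map_sum]
  refine Finset.sum_congr rfl fun k _ => ?_
  rw [map_smul]

theorem cob_vm {a b : ℕ} (z : List ι → Fin a → ExteriorAlgebra K V)
    (M : Matrix (Fin a) (Fin b) K) (L : List ι) :
    cob (fun L' => vm (z L') M) L = vm (cob z L) M := by
  let f : (Fin a → ExteriorAlgebra K V) →+ (Fin b → ExteriorAlgebra K V) :=
    { toFun := fun z => vm z M
      map_zero' := vm_zero M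
      map_add' := fun z z' => vm_add z z' M }
  exact cob_map f z L

theorem cob_iE (ε : V →ₗ[K] K) {a : ℕ} (z : List ι → Fin a → ExteriorAlgebra K V) (L : List ι) :
    cob (fun L' => fun k => iE ε (z L' k)) L = fun k => iE ε (cob z L k) := by
  let f : (Fin a → ExteriorAlgebra K V) →+ (Fin a → ExteriorAlgebra K V) :=
    { toFun := fun z k => iE ε (z k)
      map_zero' := funext fun k => map_zero _
      map_add' := fun z z' => funext fun k => map_add _ _ _ }
  exact cob_map f z L

theorem vm_dgf {a b : ℕ} {p : ℕ} (z : Fin a → ExteriorAlgebra K V) (hz : ∀ k, z k ∈ Dgf K V p)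
    (M : Matrix (Fin a) (Fin b) K) (l : Fin b) : vm z M l ∈ Dgf K V p :=
  Submodule.sum_mem _ fun k _ => Submodule.smul_mem _ _ (hz k)

variable {R : Type u} [CommRing R]

theorem om_smul (φ : R →+* K) (D : R →+ V) (y : ι → R) (T : Set ι) {c : K} (hc : c ∈ BT φ y T)
    {x : ExteriorAlgebra K V} (hx : x ∈ OmT φ D y T) : c • x ∈ OmT φ D y T := by
  have h1 : BT φ y T ≤ (OmT φ D y T).comap (algebraMap K (ExteriorAlgebra K V)) := by
    unfold BT
    rw [Subring.closure_le]
    rintro c (⟨q, rfl⟩ | ⟨t, ht, rfl⟩)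
    · exact Subring.subset_closure (Or.inl (Or.inl ⟨q, rfl⟩))
    · exact Subring.subset_closure (Or.inl (Or.inr ⟨t, ht, rfl⟩))
  rw [Algebra.smul_def]
  exact (OmT φ D y T).mul_mem (h1 hc) hx

theorem om_vm (φ : R →+* K) (D : R →+ V) (y : ι → R) (T : Set ι) {a b : ℕ}
    (z : Fin a → ExteriorAlgebra K V) (hz : ∀ k, z k ∈ OmT φ D y T)
    (M : Matrix (Fin a) (Fin b) R) (l : Fin b) : vm z (M.map φ) l ∈ OmT φ D y T :=
  (OmT φ D y T).sum_mem fun k _ => om_smul φ D y T (Subring.subset_closure (Or.inl ⟨M k l, rfl⟩)) (hz k)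

end VG
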