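import Pool.Agent.VG.Beta
import Pool.Agent.VG2.Vm

/-!
Project VG2, module Bq: the forms `bq m` (the forms `ψ`, `beta 0`, `beta 1`, ... with signs).
-/

open Matrix

namespace VG

universe u v w

/-- signs -/
def sgn (d : ℕ) : ℕ → ℤ
  | 0 => 1
  | m + 1 => (-1) ^ (d + m + 1) * sgn d m

variable {R K V : Type u} [CommRing R] [Field K] [CharZero K] [AddCommGroup V] [Module K V]
  {ι : Type v} (H : FDat R K V ι)

/-- the forms `b m`, a row vector on `P_(m+1)` -/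
noncomputable def bq (d : ℕ) : ∀ m, Fin (H.r (m + 1)) → ExteriorAlgebra K V
  | 0, j => algebraMap K (ExteriorAlgebra K V) (H.φ (H.ψ j))
  | m + 1, l => ((sgn d (m + 1) : ℤ) : K) • H.beta m l

omit [CharZero K] in
private theorem bq_beta_deg (m : ℕ) : ∀ l : Fin (H.r (m + 2)), H.beta m l ∈ Dgf K V (m + 1) := by
  induction m with
  | zero =>
    intro l
    show ((H.a 2 l : ℤ) : K)⁻¹ • io (H.D (H.c l)) ∈ Dgf K V 1
    exact Submodule.smul_mem _ _ (dgf_io _)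
  | succ m ih =>
    intro l
    show ((H.a (m + 3) l : ℤ) : K)⁻¹ • ∑ k, io (H.D (H.δ (m + 2) k l)) * H.beta m k ∈
      Dgf K V (m + 1 + 1)
    refine Submodule.smul_mem _ _ (Submodule.sum_mem _ fun k _ => ?_)
    have h := dgf_mul (dgf_io (H.D (H.δ (m + 2) k l))) (ih k)
    rw [add_comm 1 (m + 1)] at h
    exact h

private theorem bq_sgn (d m : ℕ) : ((-1 : K) ^ (d + m + 1)) * ((sgn d (m + 1) : ℤ) : K) =
    ((sgn d m : ℤ) : K) := by
  show ((-1 : K) ^ (d + m + 1)) * (((-1) ^ (d + m + 1) * sgn d m : ℤ) : K) = _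
  push_cast
  rw [← mul_assoc, ← mul_pow, neg_one_mul, neg_neg, one_pow, one_mul]

omit [CharZero K] in
private theorem bq_om_beta {ι' : Type w} (y : ι' → R) (T : Set ι') (m : ℕ) :
    ∀ l : Fin (H.r (m + 2)), H.beta m l ∈ OmT H.φ H.D y T := by
  have hD : ∀ q, (io (H.D q) : ExteriorAlgebra K V) ∈ OmT H.φ H.D y T := fun q =>
    Subring.subset_closure (Or.inr ⟨q, rfl⟩)
  have hinv : ∀ (a : ℤ) (x : ExteriorAlgebra K V), x ∈ OmT H.φ H.D y T →
      ((a : ℤ) : K)⁻¹ • x ∈ OmT H.φ H.D y T := by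
    intro a x hx
    obtain ⟨q, hq⟩ := H.inv a
    rw [← hq, Algebra.smul_def]
    exact Subring.mul_mem _ (Subring.subset_closure (Or.inl (Or.inl ⟨q, rfl⟩))) hx
  induction m with
  | zero =>
    intro l
    show ((H.a 2 l : ℤ) : K)⁻¹ • io (H.D (H.c l)) ∈ OmT H.φ H.D y T
    exact hinv _ _ (hD _)
  | succ m ih =>
    intro l
    show ((H.a (m + 3) l : ℤ) : K)⁻¹ • ∑ k, io (H.D (H.δ (m + 2) k l)) * H.beta m k ∈
      OmT H.φ H.D y T
    exact hinv _ _ (Subring.sum_mem _ fun k _ => Subring.mul_mem _ (hD _) (ih k))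

theorem bq_deg (d m : ℕ) (l : Fin (H.r (m + 1))) : bq H d m l ∈ Dgf K V m := by
  cases m with
  | zero =>
    show algebraMap K (ExteriorAlgebra K V) (H.φ (H.ψ l)) ∈ Dgf K V 0
    rw [Algebra.algebraMap_eq_smul_one]
    exact Submodule.smul_mem _ _ dgf_one
  | succ m =>
    show ((sgn d (m + 1) : ℤ) : K) • H.beta m l ∈ Dgf K V (m + 1)
    exact Submodule.smul_mem _ _ (bq_beta_deg H m l)

theorem bq_rel (d m : ℕ) (l : Fin (H.r (m + 2))) :
    vm (bq H d m) ((H.δ (m + 1)).map H.φ) l = ((-1 : K) ^ (d + m + 1)) • iE H.ε (bq H d (m + 1) l) := by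
  cases m with
  | zero =>
    show ∑ k, H.φ (H.δ 1 k l) • algebraMap K (ExteriorAlgebra K V) (H.φ (H.ψ k)) =
      ((-1 : K) ^ (d + 0 + 1)) • iE H.ε (((sgn d 1 : ℤ) : K) • H.beta 0 l)
    have h1 : ((-1 : K) ^ (d + 0 + 1)) * ((sgn d 1 : ℤ) : K) = 1 := by
      have h2 := bq_sgn (K := K) d 0
      have h3 : ((sgn d 0 : ℤ) : K) = 1 := by
        show ((1 : ℤ) : K) = 1
        exact Int.cast_one
      rw [h3] at h2
      exact h2
    rw [map_smul, smul_smul, h1, one_smul, beta_iE_zero]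
    have h4 : H.c l = ∑ k, H.ψ k * H.δ 1 k l := rfl
    rw [h4, map_sum, map_sum]
    refine Finset.sum_congr rfl fun k _ => ?_
    rw [map_mul, mul_comm, map_mul, Algebra.smul_def]
  | succ m =>
    show ∑ k, H.φ (H.δ (m + 2) k l) • (((sgn d (m + 1) : ℤ) : K) • H.beta m k) =
      ((-1 : K) ^ (d + (m + 1) + 1)) • iE H.ε (((sgn d (m + 2) : ℤ) : K) • H.beta (m + 1) l)
    have h1 : ((-1 : K) ^ (d + (m + 1) + 1)) * ((sgn d (m + 2) : ℤ) : K) =
        ((sgn d (m + 1) : ℤ) : K) := bq_sgn d (m + 1)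
    rw [map_smul, smul_smul, h1, beta_iE_succ, Finset.smul_sum]
    refine Finset.sum_congr rfl fun k _ => ?_
    rw [smul_comm]

theorem bq_mem {ι' : Type w} (y : ι' → R) (T : Set ι') (d m : ℕ) (l : Fin (H.r (m + 1))) :
    bq H d m l ∈ OmT H.φ H.D y T := by
  cases m with
  | zero =>
    show algebraMap K (ExteriorAlgebra K V) (H.φ (H.ψ l)) ∈ OmT H.φ H.D y T
    exact Subring.subset_closure (Or.inl (Or.inl ⟨_, rfl⟩))
  | succ m =>
    show ((sgn d (m + 1) : ℤ) : K) • H.beta m l ∈ OmT H.φ H.D y T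
    have h1 : ((sgn d (m + 1) : ℤ) : K) = H.φ ((sgn d (m + 1) : ℤ) : R) := by
      rw [map_intCast]
    rw [h1, Algebra.smul_def]
    exact Subring.mul_mem _ (Subring.subset_closure (Or.inl (Or.inl ⟨_, rfl⟩)))
      (bq_om_beta H y T m l)

end VG
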