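import Pool.Agent.VG2.Zet

/-!
Project VG2, module Cyc: the contraction step and the inductive construction of the cochains.
-/

open Matrix

namespace VG

universe u v w

variable {R K V : Type u} [CommRing R] [Field K] [CharZero K] [AddCommGroup V] [Module K V]
  {ι : Type v} {ι' : Type w} (H : FDat R K V ι)

private theorem cy_map {a b c : ℕ} (φ : R →+* K) (v : R) (A : Matrix (Fin a) (Fin b) R)
    (B : Matrix (Fin b) (Fin a) R) (C : Matrix (Fin a) (Fin c) R) (E : Matrix (Fin c) (Fin a) R)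
    (h : A * B + C * E = v • (1 : Matrix (Fin a) (Fin a) R)) :
    A.map φ * B.map φ + C.map φ * E.map φ = φ v • (1 : Matrix (Fin a) (Fin a) K) := by
  have h2 : (A * B + C * E).map φ = (v • (1 : Matrix (Fin a) (Fin a) R)).map φ := by rw [h]
  rw [Matrix.map_add _ (map_add φ), Matrix.map_mul, Matrix.map_mul] at h2
  rw [h2]
  ext i j
  rw [Matrix.map_apply, Matrix.smul_apply, Matrix.smul_apply, smul_eq_mul, smul_eq_mul, map_mul,
    Matrix.one_apply, Matrix.one_apply]
  split_ifs
  · rw [map_one]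
  · rw [map_zero]

private theorem cy_neg {a b : ℕ} (z : Fin a → ExteriorAlgebra K V)
    (M : Matrix (Fin a) (Fin b) K) : vm (-z) M = -vm z M := by
  have h := vm_smul (-1 : K) z M
  rw [neg_one_smul, neg_one_smul] at h
  exact h

private theorem cy_eval {a : ℕ} (u : List ι' → Fin a → ExteriorAlgebra K V) (L : List ι')
    (j : Fin a) : cob u L j = cob (fun L' => u L' j) L :=
  (cob_map (Pi.evalAddMonoidHom (fun _ : Fin a => ExteriorAlgebra K V) j) u L).symm

private theorem cy_BT (φ : R →+* K) (y : ι' → R) {S T : Set ι'} (h : S ⊆ T) :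
    BT φ y S ≤ BT φ y T := by
  unfold BT
  apply Subring.closure_mono
  rintro x (hx | ⟨t, ht, hx⟩)
  · exact Or.inl hx
  · exact Or.inr ⟨t, h ht, hx⟩

theorem ctr (p : ℕ) (z0 : Fin (H.r (p + 1)) → ExteriorAlgebra K V)
    (z1 : Fin (H.r (p + 2)) → ExteriorAlgebra K V)
    (h0 : vm z0 ((H.δ (p + 1)).map H.φ) = fun l => iE H.ε (z1 l))
    (h1 : vm z1 ((H.δ (p + 2)).map H.φ) = 0)
    (v : R) (hv : H.φ v ≠ 0) (S0 : Matrix (Fin (H.r (p + 1))) (Fin (H.r p)) R)
    (S1 : Matrix (Fin (H.r (p + 2))) (Fin (H.r (p + 1))) R)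
    (S2 : Matrix (Fin (H.r (p + 3))) (Fin (H.r (p + 2))) R)
    (e1 : H.δ (p + 1) * S1 + S0 * H.δ p = v • (1 : Matrix (Fin (H.r (p + 1))) (Fin (H.r (p + 1))) R))
    (e2 : H.δ (p + 2) * S2 + S1 * H.δ (p + 1) =
      v • (1 : Matrix (Fin (H.r (p + 2))) (Fin (H.r (p + 2))) R)) :
    (-vm (-((H.φ v)⁻¹ • vm z0 (S0.map H.φ))) ((H.δ p).map H.φ) +
        fun l => iE H.ε (((H.φ v)⁻¹ • vm z1 (S1.map H.φ)) l)) = z0 ∧
      vm ((H.φ v)⁻¹ • vm z1 (S1.map H.φ)) ((H.δ (p + 1)).map H.φ) = z1 := by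
  set f := H.φ v with hf
  have e1' := cy_map H.φ v _ _ _ _ e1
  have e2' := cy_map H.φ v _ _ _ _ e2
  rw [← hf] at e1' e2'
  have a2 : vm (vm z1 (S1.map H.φ)) ((H.δ (p + 1)).map H.φ) = f • z1 := by
    have h2 : vm z1 ((H.δ (p + 2)).map H.φ * S2.map H.φ +
        S1.map H.φ * (H.δ (p + 1)).map H.φ) = vm z1 (f • 1) := by rw [e2']
    rw [vm_matrix_add, vm_matrix_smul, vm_one, ← vm_vm, ← vm_vm, h1, vm_zero, zero_add] at h2
    exact h2
  have a1 : (fun l => iE H.ε (vm z1 (S1.map H.φ) l)) +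
      vm (vm z0 (S0.map H.φ)) ((H.δ p).map H.φ) = f • z0 := by
    have h2 : vm z0 ((H.δ (p + 1)).map H.φ * S1.map H.φ +
        S0.map H.φ * (H.δ p).map H.φ) = vm z0 (f • 1) := by rw [e1']
    rw [vm_matrix_add, vm_matrix_smul, vm_one, ← vm_vm, ← vm_vm, h0] at h2
    rw [← h2]
    congr 1
    funext l
    exact iE_vm H.ε z1 (S1.map H.φ) l
  constructor
  · rw [cy_neg, vm_smul, neg_neg]
    have h3 : (fun l => iE H.ε ((f⁻¹ • vm z1 (S1.map H.φ)) l)) =
        f⁻¹ • fun l => iE H.ε (vm z1 (S1.map H.φ) l) := by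
      funext l
      rw [Pi.smul_apply, Pi.smul_apply, map_smul]
    rw [h3, ← smul_add, add_comm (vm (vm z0 (S0.map H.φ)) ((H.δ p).map H.φ)), a1, smul_smul, inv_mul_cancel₀ hv, one_smul]
  · rw [vm_smul, a2, smul_smul, inv_mul_cancel₀ hv, one_smul]

theorem cyc (lam : ι' → V) (hlam : ∀ t, H.ε (lam t) = 1) (d : ℕ)
    (hdeg : ∀ z ∈ Dgf K V (d + 1), z = 0) (y : ι' → R)
    (hreg : ∀ (T : Set ι'), ∀ t ∈ T, (io (lam t) : ExteriorAlgebra K V) ∈ OmT H.φ H.D y T)
    (hc : ∀ (p : ℕ) (L : List ι'), L.Nodup → L.length + p + 1 = d →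
      ∃ (v : R) (S0 : Matrix (Fin (H.r (p + 1))) (Fin (H.r p)) R)
        (S1 : Matrix (Fin (H.r (p + 2))) (Fin (H.r (p + 1))) R)
        (S2 : Matrix (Fin (H.r (p + 3))) (Fin (H.r (p + 2))) R),
        H.φ v ≠ 0 ∧ (H.φ v)⁻¹ ∈ BT H.φ y {t | t ∈ L} ∧
        H.δ (p + 1) * S1 + S0 * H.δ p =
          v • (1 : Matrix (Fin (H.r (p + 1))) (Fin (H.r (p + 1))) R) ∧
        H.δ (p + 2) * S2 + S1 * H.δ (p + 1) =
          v • (1 : Matrix (Fin (H.r (p + 2))) (Fin (H.r (p + 2))) R))
    (n p : ℕ) (hnp : n + p = d) :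
    ∃ (θ0 : List ι' → Fin (H.r p) → ExteriorAlgebra K V)
      (θ1 : List ι' → Fin (H.r (p + 1)) → ExteriorAlgebra K V),
      (∀ L : List ι', L.Nodup → L.length + 1 = n → ∀ T : Set ι', (∀ t ∈ L, t ∈ T) →
        (∀ j, θ0 L j ∈ OmT H.φ H.D y T) ∧ ∀ j, θ1 L j ∈ OmT H.φ H.D y T) ∧
      (∀ L : List ι', L.Nodup → L.length + 1 = n → ∀ j, θ1 L j ∈ Dgf K V d) ∧
      ∀ L : List ι', L.Nodup → L.length = n →
        vm (zt0 H lam d p L - cob θ0 L) ((H.δ p).map H.φ) =
          (fun l => iE H.ε ((zt1 H lam d p L - cob θ1 L) l)) ∧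
        vm (zt1 H lam d p L - cob θ1 L) ((H.δ (p + 1)).map H.φ) = 0 := by
  induction n generalizing p with
  | zero =>
    refine ⟨fun _ _ => 0, fun _ _ => 0, ?_, ?_, ?_⟩
    · intro L _ hL
      exact absurd hL (Nat.succ_ne_zero _)
    · intro L _ hL
      exact absurd hL (Nat.succ_ne_zero _)
    · intro L _ hL
      have hLn : L = [] := List.eq_nil_of_length_eq_zero hL
      subst hLn
      rw [cob_nil, cob_nil, sub_zero, sub_zero]
      constructor
      · funext l
        have h := zt_B H lam d hlam p ([] : List ι') (by simpa using hnp) l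
        rw [cob_nil, Pi.zero_apply, add_zero] at h
        exact h.symm
      · have h := zt_A H lam d hdeg hlam p ([] : List ι') (by simpa using hnp)
        rw [cob_nil] at h
        exact h
  | succ n ih =>
    obtain ⟨θ0, θ1, r1, r2, r3⟩ := ih (p + 1) (by omega)
    have hex : ∀ L' : List ι', L'.Nodup → L'.length = n →
        ∃ (t0 : Fin (H.r p) → ExteriorAlgebra K V) (t1 : Fin (H.r (p + 1)) → ExteriorAlgebra K V),
          (-vm t0 ((H.δ p).map H.φ) + fun l => iE H.ε (t1 l)) =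
            zt0 H lam d (p + 1) L' - cob θ0 L' ∧
          vm t1 ((H.δ (p + 1)).map H.φ) = zt1 H lam d (p + 1) L' - cob θ1 L' ∧
          (∀ T : Set ι', (∀ t ∈ L', t ∈ T) →
            (∀ j, t0 j ∈ OmT H.φ H.D y T) ∧ ∀ j, t1 j ∈ OmT H.φ H.D y T) ∧
          ∀ j, t1 j ∈ Dgf K V d := by
      intro L' hnd hlen
      obtain ⟨v, S0, S1, S2, hv, hvB, e1, e2⟩ := hc p L' hnd (by omega)
      obtain ⟨c0, c1⟩ := r3 L' hnd hlen
      obtain ⟨q1, q2⟩ := ctr H p (zt0 H lam d (p + 1) L' - cob θ0 L')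
        (zt1 H lam d (p + 1) L' - cob θ1 L') c0 c1 v hv S0 S1 S2 e1 e2
      refine ⟨_, _, q1, q2, ?_, ?_⟩
      · intro T hT
        have hz := zt_mem H lam d y T L' (fun t ht => hreg T t (hT t ht)) (p + 1)
        have hB : (H.φ v)⁻¹ ∈ BT H.φ y T := cy_BT H.φ y (fun t ht => hT t ht) hvB
        have m0 : ∀ j, (zt0 H lam d (p + 1) L' - cob θ0 L') j ∈ OmT H.φ H.D y T := by
          intro j
          rw [Pi.sub_apply]
          refine Subring.sub_mem _ (hz.2 j) ?_
          rw [cy_eval]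
          refine cob_mem (OmT H.φ H.D y T).toAddSubgroup _ _ ?_
          intro L'' hs hl
          exact (r1 L'' (hnd.sublist hs) (by omega) T
            (fun t ht => hT t (hs.subset ht))).1 j
        have m1 : ∀ j, (zt1 H lam d (p + 1) L' - cob θ1 L') j ∈ OmT H.φ H.D y T := by
          intro j
          rw [Pi.sub_apply]
          refine Subring.sub_mem _ (hz.1 j) ?_
          rw [cy_eval]
          refine cob_mem (OmT H.φ H.D y T).toAddSubgroup _ _ ?_
          intro L'' hs hl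
          exact (r1 L'' (hnd.sublist hs) (by omega) T
            (fun t ht => hT t (hs.subset ht))).2 j
        constructor
        · intro j
          rw [Pi.neg_apply, Pi.smul_apply]
          exact Subring.neg_mem _ (om_smul H.φ H.D y T hB (om_vm H.φ H.D y T _ m0 S0 j))
        · intro j
          rw [Pi.smul_apply]
          exact om_smul H.φ H.D y T hB (om_vm H.φ H.D y T _ m1 S1 j)
      · intro j
        rw [Pi.smul_apply]
        refine Submodule.smul_mem _ _ (vm_dgf _ ?_ _ j)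
        intro k
        rw [Pi.sub_apply]
        have hdg : L'.length + (p + 1) = d := by omega
        refine Submodule.sub_mem _ ?_ ?_
        · have h := zt1_deg H lam d (p + 1) L' k
          rw [hdg] at h
          exact h
        · rw [cy_eval]
          refine cob_mem (Dgf K V d).toAddSubgroup _ _ ?_
          intro L'' hs hl
          exact r2 L'' (hnd.sublist hs) (by omega) k
    choose! t0 t1 ht using hex
    refine ⟨t0, t1, ?_, ?_, ?_⟩
    · intro L hnd hL T hT
      exact (ht L hnd (by omega)).2.2.1 T hT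
    · intro L hnd hL
      exact (ht L hnd (by omega)).2.2.2
    · intro L hnd hL
      have hLp : L.length + p = d := by omega
      constructor
      · have b1 : cob (fun L' => fun k => iE H.ε (t1 L' k)) L -
            cob (fun L' => vm (t0 L') ((H.δ p).map H.φ)) L = cob (zt0 H lam d (p + 1)) L := by
          rw [← cob_sub, cob_congr _ (fun L' => zt0 H lam d (p + 1) L' - cob θ0 L') L
            (fun L' hs hl => by
              have h := (ht L' (hnd.sublist hs) (by omega)).1
              rw [← h]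
              funext k
              simp only [Pi.sub_apply, Pi.add_apply, Pi.neg_apply]
              abel), cob_sub, cob_cob, sub_zero]
        rw [vm_sub, ← cob_vm]
        funext l
        have hB := zt_B H lam d hlam p L hLp l
        have b2 := congrFun b1 l
        rw [Pi.sub_apply, cob_iE] at b2
        rw [Pi.sub_apply, Pi.sub_apply, map_sub, hB, ← b2]
        abel
      · rw [vm_sub, ← cob_vm, cob_congr _ (fun L' => zt1 H lam d (p + 1) L' - cob θ1 L') L
          (fun L' hs hl => (ht L' (hnd.sublist hs) (by omega)).2.1), cob_sub, cob_cob, sub_zero,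
          zt_A H lam d hdeg hlam p L hLp, sub_self]

end VG
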