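import Pool.Agent.VG.TopF

/-!
Project VG2, module Dgf: forms of degree `p`.

PLAN.  `Dgf p` is the `K`-span of the products of `p` one-forms `io v`.
`dgf_one`: empty product.  `dgf_io`: one factor.  `dgf_mul`: span induction in both arguments
(`List.map_append`, `List.prod_append`).  `dgf_iE`, `dgf_leib`: for a product of one-forms by induction
on the list with `iE_io_mul`, then span induction (`iE_one` for the empty list; `dgf_iE_zero`).
`dgf_top`: products of more than `d` one-forms over `Fin d → K` vanish: `ExteriorAlgebra.ιMulti`,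
`AlternatingMap.map_linearDependent` or as in the private lemma `tf_zero` of module `TopF`
(which treats length `d + 1`; a longer product contains such a product).
`dgf_mu`, `iE_mu`: induction on the list (`cob_cons`, `cob_map`).
-/

namespace VG

universe u w

variable {K V : Type u} [Field K] [AddCommGroup V] [Module K V] {ι : Type w}

/-- forms of degree `p` -/
def Dgf (K V : Type u) [Field K] [AddCommGroup V] [Module K V] (p : ℕ) :
    Submodule K (ExteriorAlgebra K V) :=
  Submodule.span K {x | ∃ L : List V, L.length = p ∧ x = (L.map fun v => io v).prod}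

theorem dgf_one : (1 : ExteriorAlgebra K V) ∈ Dgf K V 0 := by
  exact Submodule.subset_span ⟨[], rfl, by rw [List.map_nil, List.prod_nil]⟩

theorem dgf_io (x : V) : (io x : ExteriorAlgebra K V) ∈ Dgf K V 1 := by
  exact Submodule.subset_span ⟨[x], rfl, by
    rw [List.map_cons, List.map_nil, List.prod_cons, List.prod_nil, mul_one]⟩

theorem dgf_mul {p q : ℕ} {x z : ExteriorAlgebra K V} (hx : x ∈ Dgf K V p) (hz : z ∈ Dgf K V q) :
    x * z ∈ Dgf K V (p + q) := by
  unfold Dgf at hx hz ⊢
  induction hx using Submodule.span_induction with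
  | mem a ha =>
    obtain ⟨L, hL, rfl⟩ := ha
    induction hz using Submodule.span_induction with
    | mem b hb =>
      obtain ⟨L', hL', rfl⟩ := hb
      exact Submodule.subset_span ⟨L ++ L', by rw [List.length_append, hL, hL'], by
        rw [List.map_append, List.prod_append]⟩
    | zero =>
      rw [mul_zero]
      exact Submodule.zero_mem _
    | add b c _ _ hb hc =>
      rw [mul_add]
      exact Submodule.add_mem _ hb hc
    | smul r b _ hb =>
      rw [mul_smul_comm]
      exact Submodule.smul_mem _ r hb
  | zero =>
    rw [zero_mul]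
    exact Submodule.zero_mem _
  | add a b _ _ ha hb =>
    rw [add_mul]
    exact Submodule.add_mem _ ha hb
  | smul r a _ ha =>
    rw [smul_mul_assoc]
    exact Submodule.smul_mem _ r ha

theorem dgf_iE_zero (ε : V →ₗ[K] K) {x : ExteriorAlgebra K V} (hx : x ∈ Dgf K V 0) :
    iE ε x = 0 := by
  unfold Dgf at hx
  induction hx using Submodule.span_induction with
  | mem a ha =>
    obtain ⟨L, hL, rfl⟩ := ha
    rw [List.length_eq_zero_iff.1 hL, List.map_nil, List.prod_nil, iE_one]
  | zero => rw [map_zero]
  | add a b _ _ ha hb => rw [map_add, ha, hb, add_zero]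
  | smul r a _ ha => rw [map_smul, ha, smul_zero]

private theorem dg_iE_list (ε : V →ₗ[K] K) (L : List V) :
    ∀ p, L.length = p + 1 →
      iE ε ((L.map fun v => (io v : ExteriorAlgebra K V)).prod) ∈ Dgf K V p := by
  induction L with
  | nil =>
    intro p hp
    rw [List.length_nil] at hp
    omega
  | cons x L ih =>
    intro p hp
    have hp' : L.length = p := by
      rw [List.length_cons] at hp
      omega
    rw [List.map_cons, List.prod_cons, iE_io_mul]
    refine Submodule.sub_mem _ ?_ ?_
    · exact Submodule.smul_mem _ _ (Submodule.subset_span ⟨L, hp', rfl⟩)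
    · rcases p with _ | q
      · rw [List.length_eq_zero_iff.1 hp', List.map_nil, List.prod_nil, iE_one, mul_zero]
        exact Submodule.zero_mem _
      · have h := dgf_mul (dgf_io (K := K) x) (ih q hp')
        rw [add_comm] at h
        exact h

theorem dgf_iE (ε : V →ₗ[K] K) {p : ℕ} {x : ExteriorAlgebra K V} (hx : x ∈ Dgf K V (p + 1)) :
    iE ε x ∈ Dgf K V p := by
  unfold Dgf at hx
  induction hx using Submodule.span_induction with
  | mem a ha =>
    obtain ⟨L, hL, rfl⟩ := ha
    exact dg_iE_list ε L p hL
  | zero =>
    rw [map_zero]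
    exact Submodule.zero_mem _
  | add a b _ _ ha hb =>
    rw [map_add]
    exact Submodule.add_mem _ ha hb
  | smul r a _ ha =>
    rw [map_smul]
    exact Submodule.smul_mem _ r ha

private theorem dg_leib_list (ε : V →ₗ[K] K) (z : ExteriorAlgebra K V) (L : List V) :
    iE ε ((L.map fun v => (io v : ExteriorAlgebra K V)).prod * z) =
      iE ε ((L.map fun v => (io v : ExteriorAlgebra K V)).prod) * z +
        ((-1 : K) ^ L.length) • ((L.map fun v => (io v : ExteriorAlgebra K V)).prod * iE ε z) := by
  induction L with
  | nil =>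
    rw [List.map_nil, List.prod_nil, iE_one, one_mul, zero_mul, zero_add, List.length_nil,
      pow_zero, one_smul, one_mul]
  | cons x L ih =>
    rw [List.map_cons, List.prod_cons, mul_assoc, iE_io_mul, ih, iE_io_mul, List.length_cons,
      pow_succ, mul_neg_one, neg_smul, sub_mul, smul_mul_assoc, mul_add, mul_smul_comm, mul_assoc,
      mul_assoc]
    abel

theorem dgf_leib (ε : V →ₗ[K] K) {p : ℕ} {x : ExteriorAlgebra K V} (hx : x ∈ Dgf K V p)
    (z : ExteriorAlgebra K V) :
    iE ε (x * z) = iE ε x * z + ((-1 : K) ^ p) • (x * iE ε z) := by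
  unfold Dgf at hx
  induction hx using Submodule.span_induction with
  | mem a ha =>
    obtain ⟨L, rfl, rfl⟩ := ha
    exact dg_leib_list ε z L
  | zero => rw [zero_mul, map_zero, zero_mul, zero_mul, smul_zero, add_zero]
  | add a b _ _ ha hb =>
    rw [add_mul, map_add, ha, hb, map_add, add_mul, add_mul, smul_add]
    abel
  | smul r a _ ha =>
    rw [smul_mul_assoc, map_smul, ha, map_smul, smul_mul_assoc, smul_mul_assoc, smul_add,
      smul_comm r]

private theorem dg_list (L : List V) :
    (L.map fun v => (io v : ExteriorAlgebra K V)).prod =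
      ExteriorAlgebra.ιMulti K L.length L.get := by
  rw [ExteriorAlgebra.ιMulti_apply]
  conv_lhs => rw [← List.ofFn_get L]
  rw [List.map_ofFn]
  rfl

theorem dgf_top {d p : ℕ} (hp : d < p) {z : ExteriorAlgebra K (Fin d → K)}
    (hz : z ∈ Dgf K (Fin d → K) p) : z = 0 := by
  unfold Dgf at hz
  induction hz using Submodule.span_induction with
  | mem a ha =>
    obtain ⟨L, hL, rfl⟩ := ha
    rw [dg_list]
    refine AlternatingMap.map_linearDependent _ _ ?_
    intro hli
    have h1 := hli.fintype_card_le_finrank
    rw [Fintype.card_fin, Module.finrank_fin_fun] at h1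
    omega
  | zero => rfl
  | add a b _ _ ha hb => rw [ha, hb, add_zero]
  | smul r a _ ha => rw [ha, smul_zero]

theorem dgf_mu (lam : ι → V) (L : List ι) : mu lam L ∈ Dgf K V L.length := by
  induction L with
  | nil => exact dgf_one
  | cons a L ih =>
    have h := dgf_mul (dgf_io (K := K) (lam a)) ih
    rw [add_comm] at h
    exact h

theorem iE_mu (ε : V →ₗ[K] K) (lam : ι → V) (hlam : ∀ t, ε (lam t) = 1) (L : List ι) :
    iE ε (mu lam L) = cob (mu lam) L := by
  induction L with
  | nil => exact iE_one ε
  | cons a L ih =>
    have h1 : mu lam (a :: L) = io (lam a) * (mu lam L : ExteriorAlgebra K V) := rfl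
    have h2 : (fun L' => (mu lam (a :: L') : ExteriorAlgebra K V)) =
        fun L' => AddMonoidHom.mulLeft (io (lam a)) (mu lam L') := rfl
    rw [h1, iE_io_mul, hlam, one_smul, ih, cob_cons, h2, cob_map]
    rfl

end VG
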