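import Pool.Agent.VG.GAv

/-!
Project VG2, module SopS: homogeneous systems of parameters adapted to a chain of ideals.

The sequence is built one element at a time: the element number `i` is chosen in `c (i - 1)`
outside the minimal primes of the ideal generated by the elements before.
-/

namespace VG

universe u

variable {k R : Type u} [Field k] [CommRing R] [Algebra k R] (𝒜 : ℤ → Submodule k R)
  [GradedAlgebra 𝒜]

private theorem stepS [Nontrivial R] [IsNoetherianRing R] (hC : Conn 𝒜) (c : ℕ → Ideal R)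
    (hc : ∀ p, (c p).IsHomogeneous 𝒜) (hmono : ∀ p q, p ≤ q → c p ≤ c q) (d : ℕ)
    (hd : (irr 𝒜).height = d)
    (hcp : ∀ (p : ℕ) (q : Ideal R), q.IsPrime → c p ≤ q → ((p + 3 : ℕ) : ℕ∞) ≤ q.height)
    (i : ℕ) (hi : i ≤ d) :
    ∃ (y : Fin i → R) (b : Fin i → ℤ), (∀ a, 0 < b a ∧ y a ∈ 𝒜 (b a)) ∧
      (∀ (p : ℕ) (a : Fin i), a.val ≤ p + 1 → y a ∈ c p) ∧
      ∀ p : Ideal R, p.IsPrime → Ideal.span (Set.range y) ≤ p → (i : ℕ∞) ≤ p.height := by
  induction i with
  | zero =>
    refine ⟨Fin.elim0, Fin.elim0, fun a => a.elim0, fun _ a => a.elim0, fun p _ _ => ?_⟩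
    rw [Nat.cast_zero]
    exact zero_le
  | succ i ih =>
    obtain ⟨y, b, h1, h2, h3⟩ := ih (by omega)
    have hQ : (Ideal.span (Set.range y)).IsHomogeneous 𝒜 := by
      refine Ideal.homogeneous_span 𝒜 _ fun x hx => ?_
      obtain ⟨a, rfl⟩ := hx
      exact ⟨b a, (h1 a).2⟩
    have hfin := Ideal.finite_minimalPrimes_of_isNoetherianRing R (Ideal.span (Set.range y))
    have hht : ∀ p ∈ (Ideal.span (Set.range y)).minimalPrimes, p.height ≤ (i : ℕ∞) := by
      intro p hp
      refine (Ideal.height_le_card_of_mem_minimalPrimes_span (Set.finite_range y) hp).trans ?_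
      have h4 : (Set.range y).ncard ≤ i := by
        rw [← Set.image_univ]
        refine (Set.ncard_image_le Set.finite_univ).trans ?_
        rw [Set.ncard_univ, Nat.card_eq_fintype_card, Fintype.card_fin]
      exact_mod_cast h4
    obtain ⟨J', hJ'1, hJ'2, hJ'3, hJ'4⟩ : ∃ J' : Ideal R, J'.IsHomogeneous 𝒜 ∧ J' ≤ irr 𝒜 ∧
        J' ≤ c (i - 1) ∧ ∀ p ∈ (Ideal.span (Set.range y)).minimalPrimes, ¬ J' ≤ p := by
      refine ⟨c (i - 1) ⊓ irr 𝒜, (hc _).inf (irr_hom 𝒜), inf_le_right, inf_le_left, ?_⟩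
      intro p hp hle
      have hpp : p.IsPrime := hp.1.1
      rcases (Ideal.IsPrime.inf_le hpp).1 hle with h6 | h6
      · have h7 := (hcp _ p hpp h6).trans (hht p hp)
        have h8 : i - 1 + 3 ≤ i := by exact_mod_cast h7
        omega
      · have h7 := (Ideal.height_mono h6).trans (hht p hp)
        rw [hd] at h7
        have h8 : d ≤ i := by exact_mod_cast h7
        omega
    obtain ⟨z, e, he, hz, hzJ, hzp⟩ := graded_avoid 𝒜 hC J' hJ'1 hJ'2 hfin.toFinset (by
      intro p hp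
      rw [Set.Finite.mem_toFinset] at hp
      exact ⟨hp.1.1, hJ'4 p hp⟩)
    refine ⟨Fin.snoc (α := fun _ => R) y z, Fin.snoc (α := fun _ => ℤ) b e, ?_, ?_, ?_⟩
    · intro a
      refine Fin.lastCases ?_ (fun a => ?_) a
      · rw [Fin.snoc_last, Fin.snoc_last]
        exact ⟨he, hz⟩
      · rw [Fin.snoc_castSucc, Fin.snoc_castSucc]
        exact h1 a
    · intro p a
      refine Fin.lastCases ?_ (fun a => ?_) a
      · intro ha
        rw [Fin.snoc_last]
        have h4 : i ≤ p + 1 := by simpa using ha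
        exact hmono (i - 1) p (by omega) (hJ'3 hzJ)
      · intro ha
        rw [Fin.snoc_castSucc]
        exact h2 p a (by simpa using ha)
    · intro p hp hle
      have h6 : Ideal.span (Set.range y) ≤ p := by
        rw [Ideal.span_le]
        rintro _ ⟨a, rfl⟩
        refine hle (Ideal.subset_span ⟨a.castSucc, ?_⟩)
        rw [Fin.snoc_castSucc]
      have h7 : z ∈ p := by
        refine hle (Ideal.subset_span ⟨Fin.last i, ?_⟩)
        rw [Fin.snoc_last]
      obtain ⟨p', hp', hpp'⟩ := Ideal.exists_minimalPrimes_le h6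
      have hp'p : p'.IsPrime := hp'.1.1
      have h8 : p' < p := by
        refine lt_of_le_of_ne hpp' ?_
        rintro rfl
        exact hzp p' (hfin.mem_toFinset.2 hp') h7
      have h9 := Ideal.height_add_one_le_of_lt_of_isPrime h8
      have h10 := h3 p' hp'p hp'.1.2
      rw [Nat.cast_add, Nat.cast_one]
      exact (add_le_add_left h10 1).trans h9

theorem exists_sopS [Nontrivial R] [IsNoetherianRing R] (hC : Conn 𝒜) (c : ℕ → Ideal R)
    (hc : ∀ p, (c p).IsHomogeneous 𝒜) (hmono : ∀ p, c p ≤ c (p + 1)) (d : ℕ)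
    (hd : (irr 𝒜).height = d)
    (hcp : ∀ (p : ℕ) (q : Ideal R), q.IsPrime → c p ≤ q → ((p + 3 : ℕ) : ℕ∞) ≤ q.height) :
    ∃ (y : Fin d → R) (b : Fin d → ℤ) (N : ℕ), (∀ a, 0 < b a ∧ y a ∈ 𝒜 (b a)) ∧
      (∀ (p : ℕ) (a : Fin d), a.val ≤ p + 1 → y a ∈ c p) ∧
      (irr 𝒜) ^ N ≤ Ideal.span (Set.range y) := by
  obtain ⟨y, b, h1, h2, h3⟩ := stepS 𝒜 hC c hc (fun p q h => monotone_nat_of_le_succ hmono h) d hd
    hcp d le_rfl
  have hQ : (Ideal.span (Set.range y)).IsHomogeneous 𝒜 := by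
    refine Ideal.homogeneous_span 𝒜 _ fun x hx => ?_
    obtain ⟨a, rfl⟩ := hx
    exact ⟨b a, (h1 a).2⟩
  have h4 : irr 𝒜 ≤ (Ideal.span (Set.range y)).radical := by
    rw [← Ideal.sInf_minimalPrimes]
    refine le_sInf fun p hp => ?_
    have hpp : p.IsPrime := hp.1.1
    have h5 := hom_le_irr 𝒜 hC p (minimal_hom 𝒜 _ hQ p hp) hpp.ne_top
    by_contra h6
    have h7 : p < irr 𝒜 := lt_of_le_not_ge h5 h6
    have h8 := Ideal.height_strict_mono_of_isPrime h7
    rw [hd] at h8
    exact absurd (h3 p hpp hp.1.2) (not_le.2 h8)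
  obtain ⟨N, hN⟩ := Ideal.exists_pow_le_of_le_radical_of_fg h4 (IsNoetherian.noetherian _)
  exact ⟨y, b, N, h1, h2, hN⟩

end VG
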