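import Pool.Agent.Helper19.PdBasic
import Mathlib

/-!
Project VG2, module SplB: a bound for the projective dimension of the image of `σ` splits the
resolution.

PLAN.  `PD B X n` means projective dimension `< n` (`Pool/Agent/Helper19/PdBasic.lean`: `pd_ker`,
`PD.congr`, `projective_of_pd_one`; `exact_subtype...`).  The sequences
`0 → range (δ 0) → B^(r 0) → range σ → 0` and `0 → range (δ (j+1)) → B^(r (j+1)) → range (δ j) → 0` are exact
(`cx`, `ex`; the map onto the range is `LinearMap.rangeRestrict`), so by `pd_ker`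
`PD (range (δ j)) (p - j)` for `j < p`; in particular the module `X = range (δ (p-1))`
(`X = range σ` for `p = 0`) is projective (`projective_of_pd_one`).  Do it as an induction on `p` for a
general complex: Lemma: `D : Matrix (Fin c) (Fin b)`, `E : Matrix (Fin b) (Fin a)`,
`D * E = 0`, exact, `range D` projective; then there is a projection: the surjection
`B^b → range D` has a section `t` (`Module.projective_lifting_property`), `π = 1 - t ∘ D` maps into
`ker D = range E` and is the identity on `range E`; lift `π : B^b → range E` through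
`B^a → range E` (free, `Module.projective_lifting_property`) to `s : B^b → B^a`, `E ∘ s = π`,
so `E ∘ s ∘ E = E`; take the matrix of `s` (`LinearMap.toMatrix'`).
-/

open Matrix

namespace VG

universe u

open Pool.Agent.Helper19

private theorem exact_range {B X Y W : Type u} [CommRing B] [AddCommGroup X] [Module B X]
    [AddCommGroup Y] [Module B Y] [AddCommGroup W] [Module B W] (f : X →ₗ[B] Y) (g : W →ₗ[B] X)
    (hc : ∀ w, f (g w) = 0) (he : ∀ x, f x = 0 → ∃ w, x = g w) :
    Function.Exact (LinearMap.range g).subtype f.rangeRestrict := by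
  intro x
  constructor
  · intro hx
    have hx' : f x = 0 := congrArg Subtype.val hx
    obtain ⟨w, rfl⟩ := he x hx'
    exact ⟨⟨g w, LinearMap.mem_range_self g w⟩, rfl⟩
  · rintro ⟨⟨y, w, rfl⟩, rfl⟩
    exact Subtype.ext (hc w)

private theorem step_ker {B X Y W : Type u} [CommRing B] [AddCommGroup X] [Module B X]
    [AddCommGroup Y] [Module B Y] [AddCommGroup W] [Module B W] [Module.Free B X]
    (f : X →ₗ[B] Y) (g : W →ₗ[B] X)
    (hc : ∀ w, f (g w) = 0) (he : ∀ x, f x = 0 → ∃ w, x = g w) {n : ℕ}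
    (h : PD B (LinearMap.range f) (n + 2)) : PD B (LinearMap.range g) (n + 1) :=
  pd_ker (f := (LinearMap.range g).subtype) (g := f.rangeRestrict) Subtype.val_injective
    f.surjective_rangeRestrict (exact_range f g hc he) h

private theorem mulVec_comp_zero {B : Type u} [CommRing B] {a b c : ℕ}
    {M : Matrix (Fin a) (Fin b) B} {N : Matrix (Fin b) (Fin c) B} (h : M * N = 0) :
    ∀ w, M.mulVecLin (N.mulVecLin w) = 0 := by
  intro w
  rw [mulVecLin_apply, mulVecLin_apply, Matrix.mulVec_mulVec, h, Matrix.zero_mulVec]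

private theorem pd_up {B : Type u} [CommRing B] (r : ℕ → ℕ)
    (δ : ∀ p, Matrix (Fin (r p)) (Fin (r (p + 1))) B)
    (cxδ : ∀ p, δ p * δ (p + 1) = 0)
    (exδ : ∀ p u, δ p *ᵥ u = 0 → ∃ w, u = δ (p + 1) *ᵥ w) :
    ∀ p q : ℕ, PD B (LinearMap.range (δ q).mulVecLin) (p + 1) →
      PD B (LinearMap.range (δ (q + p)).mulVecLin) 1 := by
  intro p
  induction p with
  | zero => intro q h; exact h
  | succ p ih =>
    intro q h
    have h1 : PD B (LinearMap.range (δ (q + 1)).mulVecLin) (p + 1) :=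
      step_ker (δ q).mulVecLin _ (mulVec_comp_zero (cxδ q)) (fun x hx => exδ q x hx) h
    have h2 := ih (q + 1) h1
    have h3 : q + (p + 1) = q + 1 + p := by omega
    rw [h3]
    exact h2

private theorem split_one {B : Type u} [CommRing B] {a b c : ℕ} (D : Matrix (Fin c) (Fin b) B)
    (E : Matrix (Fin b) (Fin a) B) (hDE : D * E = 0)
    (hex : ∀ u, D *ᵥ u = 0 → ∃ w, u = E *ᵥ w)
    (h : PD B (LinearMap.range D.mulVecLin) 1) :
    ∃ s : Matrix (Fin a) (Fin b) B, E * s * E = E := by
  have hproj : Module.Projective B (LinearMap.range D.mulVecLin) := projective_of_pd_one h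
  obtain ⟨t, ht⟩ := Module.projective_lifting_property D.mulVecLin.rangeRestrict LinearMap.id
    D.mulVecLin.surjective_rangeRestrict
  have ht' : ∀ x, D.mulVecLin (t x) = x := by
    intro x
    exact congrArg (fun g : LinearMap.range D.mulVecLin →ₗ[B] LinearMap.range D.mulVecLin =>
      (g x : Fin c → B)) ht
  have hk : ∀ x : Fin b → B, D *ᵥ (x - t (D.mulVecLin.rangeRestrict x)) = 0 := by
    intro x
    have h1 := ht' (D.mulVecLin.rangeRestrict x)
    rw [Matrix.mulVec_sub]
    have h2 : D *ᵥ t (D.mulVecLin.rangeRestrict x) = D *ᵥ x := h1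
    rw [h2, sub_self]
  choose w hw using fun i : Fin b => hex _ (hk (Pi.single i 1))
  let s : Matrix (Fin a) (Fin b) B := fun j i => w i j
  have hs : ∀ x : Fin b → B, E *ᵥ (s *ᵥ x) = x - t (D.mulVecLin.rangeRestrict x) := by
    intro x
    let L : (Fin b → B) →ₗ[B] (Fin b → B) := (E.mulVecLin ∘ₗ s.mulVecLin)
    let L' : (Fin b → B) →ₗ[B] (Fin b → B) := LinearMap.id - t ∘ₗ D.mulVecLin.rangeRestrict
    have hLL : L = L' := by
      refine LinearMap.pi_ext' fun i => LinearMap.ext_ring ?_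
      show E *ᵥ (s *ᵥ Pi.single i 1) = Pi.single i 1 - t (D.mulVecLin.rangeRestrict (Pi.single i 1))
      rw [hw i, Matrix.mulVec_single_one]
      rfl
    exact congrArg (fun g : (Fin b → B) →ₗ[B] (Fin b → B) => g x) hLL
  refine ⟨s, ?_⟩
  apply Matrix.toLin'.injective
  refine LinearMap.ext fun y => ?_
  rw [Matrix.toLin'_apply, Matrix.toLin'_apply, ← Matrix.mulVec_mulVec, ← Matrix.mulVec_mulVec, hs]
  have h0 : D.mulVecLin.rangeRestrict (E *ᵥ y) = 0 := by
    refine Subtype.ext ?_
    show D *ᵥ (E *ᵥ y) = 0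
    rw [Matrix.mulVec_mulVec, hDE, Matrix.zero_mulVec]
  rw [h0, map_zero, sub_zero]

theorem exists_split {B : Type u} [CommRing B] {μ : ℕ} (r : ℕ → ℕ)
    (σ : Matrix (Fin μ) (Fin (r 0)) B) (δ : ∀ p, Matrix (Fin (r p)) (Fin (r (p + 1))) B)
    (cxσ : σ * δ 0 = 0) (cxδ : ∀ p, δ p * δ (p + 1) = 0)
    (exσ : ∀ u, σ *ᵥ u = 0 → ∃ w, u = δ 0 *ᵥ w)
    (exδ : ∀ p u, δ p *ᵥ u = 0 → ∃ w, u = δ (p + 1) *ᵥ w) (p : ℕ)
    (h : PD B (LinearMap.range σ.mulVecLin) (p + 1)) :
    ∃ s : Matrix (Fin (r (p + 1))) (Fin (r p)) B, δ p * s * δ p = δ p := by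
  rcases p with _ | q
  · exact split_one σ (δ 0) cxσ exσ h
  · have h0 : PD B (LinearMap.range (δ 0).mulVecLin) (q + 1) :=
      step_ker σ.mulVecLin _ (mulVec_comp_zero cxσ) (fun x hx => exσ x hx) h
    have h1 := pd_up r δ cxδ exδ q 0 h0
    rw [zero_add] at h1
    exact split_one (δ q) (δ (q + 1)) (cxδ q) (exδ q) h1

end VG
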