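import Pool.Agent.VG2.Bq

/-!
Project VG2, module Zet: the cochains `zt1 p L = mu lam L * bq p` and `zt0`.

Signs are computed from `bq_rel` and the Leibniz rule.
-/

open Matrix

namespace VG

universe u v w

variable {R K V : Type u} [CommRing R] [Field K] [CharZero K] [AddCommGroup V] [Module K V]
  {ι : Type v} {ι' : Type w} (H : FDat R K V ι) (lam : ι' → V) (d : ℕ)

/-- second component of the cochain -/
noncomputable def zt1 (p : ℕ) (L : List ι') : Fin (H.r (p + 1)) → ExteriorAlgebra K V :=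
  fun l => mu lam L * bq H d p l

/-- first component of the cochain -/
noncomputable def zt0 : ∀ p : ℕ, List ι' → Fin (H.r p) → ExteriorAlgebra K V
  | 0, _ => 0
  | p + 1, L => fun l => mu lam L * bq H d p l

omit [CharZero K] in
private theorem zt_vm {a b : ℕ} (x : ExteriorAlgebra K V) (z : Fin a → ExteriorAlgebra K V)
    (M : Matrix (Fin a) (Fin b) K) (l : Fin b) :
    vm (fun k => x * z k) M l = x * vm z M l := by
  show ∑ k, M k l • (x * z k) = x * ∑ k, M k l • z k
  rw [Finset.mul_sum]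
  refine Finset.sum_congr rfl fun k _ => ?_
  rw [mul_smul_comm]

omit [CharZero K] in
private theorem zt_cob {a : ℕ} (z : Fin a → ExteriorAlgebra K V) (L : List ι') (l : Fin a) :
    cob (fun L' => fun k => mu lam L' * z k) L l = cob (mu lam) L * z l := by
  have h1 := cob_map (Pi.evalAddMonoidHom (fun _ : Fin a => ExteriorAlgebra K V) l)
    (fun L' => fun k => mu lam L' * z k) L
  have h2 := cob_map (AddMonoidHom.mulRight (z l)) (mu lam) L
  simp only [Pi.evalAddMonoidHom_apply] at h1
  simp only [AddMonoidHom.mulRight_apply] at h2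
  calc cob (fun L' => fun k => mu lam L' * z k) L l
      = cob (fun L' => mu lam L' * z l) L := h1.symm
    _ = cob (mu lam) L * z l := h2

theorem zt_A (hdeg : ∀ z ∈ Dgf K V (d + 1), z = 0) (hlam : ∀ t, H.ε (lam t) = 1) (p : ℕ)
    (L : List ι') (hL : L.length + p = d) :
    vm (zt1 H lam d p L) ((H.δ (p + 1)).map H.φ) = cob (zt1 H lam d (p + 1)) L := by
  funext l
  have h1 : vm (zt1 H lam d p L) ((H.δ (p + 1)).map H.φ) l =
      mu lam L * vm (bq H d p) ((H.δ (p + 1)).map H.φ) l := zt_vm _ _ _ _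
  have h2 : cob (zt1 H lam d (p + 1)) L l = cob (mu lam) L * bq H d (p + 1) l := zt_cob _ _ _ _
  rw [h1, h2, bq_rel, mul_smul_comm]
  have h3 : mu lam L * bq H d (p + 1) l = 0 := by
    apply hdeg
    have h4 := dgf_mul (dgf_mu lam L) (bq_deg H d (p + 1) l)
    have h5 : L.length + (p + 1) = d + 1 := by omega
    rwa [h5] at h4
  have h4 := dgf_leib H.ε (dgf_mu lam L) (bq H d (p + 1) l)
  rw [h3, map_zero, iE_mu H.ε lam hlam] at h4
  have h5 : (-1 : K) ^ (d + p + 1) = -(-1) ^ L.length := by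
    rw [← hL, show L.length + p + p + 1 = L.length + 2 * p + 1 by ring, pow_succ, pow_add, pow_mul]
    simp
  rw [h5, neg_smul]
  exact (eq_neg_of_add_eq_zero_left h4.symm).symm

theorem zt_B (hlam : ∀ t, H.ε (lam t) = 1) (p : ℕ) (L : List ι') (hL : L.length + p = d)
    (l : Fin (H.r (p + 1))) :
    iE H.ε (zt1 H lam d p L l) =
      vm (zt0 H lam d p L) ((H.δ p).map H.φ) l + cob (zt0 H lam d (p + 1)) L l := by
  have h1 : iE H.ε (zt1 H lam d p L l) = iE H.ε (mu lam L * bq H d p l) := rfl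
  have h2 : cob (zt0 H lam d (p + 1)) L l = cob (mu lam) L * bq H d p l := zt_cob _ _ _ _
  rw [h1, h2, dgf_leib H.ε (dgf_mu lam L), iE_mu H.ε lam hlam, add_comm]
  congr 1
  cases p with
  | zero =>
    have h3 : zt0 H lam d 0 L = 0 := rfl
    rw [h3, vm_zero, dgf_iE_zero H.ε (bq_deg H d 0 l), mul_zero, smul_zero]
    rfl
  | succ m =>
    have h3 : vm (zt0 H lam d (m + 1) L) ((H.δ (m + 1)).map H.φ) l =
        mu lam L * vm (bq H d m) ((H.δ (m + 1)).map H.φ) l := zt_vm _ _ _ _
    rw [h3, bq_rel, mul_smul_comm]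
    congr 1
    rw [← hL, show L.length + (m + 1) + m + 1 = L.length + 2 * (m + 1) by ring, pow_add, pow_mul]
    simp

theorem zt1_deg (p : ℕ) (L : List ι') (l : Fin (H.r (p + 1))) :
    zt1 H lam d p L l ∈ Dgf K V (L.length + p) :=
  dgf_mul (dgf_mu lam L) (bq_deg H d p l)

theorem zt0_deg (p : ℕ) (L : List ι') (l : Fin (H.r p)) (e : ℕ) (he : e + 1 = L.length + p) :
    zt0 H lam d p L l ∈ Dgf K V e := by
  cases p with
  | zero => exact Submodule.zero_mem _
  | succ m =>
    have h1 : zt0 H lam d (m + 1) L l = mu lam L * bq H d m l := rfl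
    have h2 : e = L.length + m := by omega
    rw [h1, h2]
    exact dgf_mul (dgf_mu lam L) (bq_deg H d m l)

theorem zt_mem (y : ι' → R) (T : Set ι') (L : List ι')
    (hlam : ∀ t ∈ L, (io (lam t) : ExteriorAlgebra K V) ∈ OmT H.φ H.D y T) (p : ℕ) :
    (∀ l, zt1 H lam d p L l ∈ OmT H.φ H.D y T) ∧ ∀ l, zt0 H lam d p L l ∈ OmT H.φ H.D y T := by
  have hmu : mu lam L ∈ OmT H.φ H.D y T := by
    induction L with
    | nil => exact Subring.one_mem _
    | cons a L ih =>
      exact Subring.mul_mem _ (hlam a List.mem_cons_self)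
        (ih fun t ht => hlam t (List.mem_cons_of_mem _ ht))
  refine ⟨fun l => Subring.mul_mem _ hmu (bq_mem H y T d p l), fun l => ?_⟩
  cases p with
  | zero => exact Subring.zero_mem _
  | succ m => exact Subring.mul_mem _ hmu (bq_mem H y T d m l)

end VG
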